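import Pool.Agent.H98.OCV.Defs
import Pool.Agent.H98.OCM.Stmts
import Pool.Agent.H79.OCM.One

/-!
# Theorem OCV: statements of the rows

`n = ⌊ν X⌋`: the fine scales are `n ≤ i < 2 n`; the references have scales at most `3 n`.
-/

set_option autoImplicit false

namespace Pool.OCV

open Finset Real
open Pool.Agent.H49.Ent Pool.Agent.H32.Dense Pool.STK Pool.KAF
open Pool.OCM
open Pool.OC (sc)

/-! ### NFR: the rows are often not full, in all coordinates -/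

/-- **NFR.** `OCM.NFVStmt` for the family. -/
def NFRStmt (c : ℕ) : Prop :=
  ∀ c₀ : ℝ, 0 < c₀ → ∃ u : ℝ, 0 < u ∧ u ≤ 1 ∧ ∀ D : ℝ, ∃ K : ℕ, ∀ (k m : ℕ) (κ π₁ : ℝ),
    1 ≤ m → 0 < κ → κ ≤ 1 → 0 < π₁ → ∃ (π₀ : ℝ) (X₀ : ℕ), 0 < π₀ ∧ ∀ (d : Dat c) (kmax : ℕ),
      IsLaw d.P → X₀ ≤ d.X → (kmax : ℝ) ≤ u * (m * ⌊κ * d.X⌋₊ : ℕ) → d.H5 c₀ κ π₀ →
      ∀ (Ω ξ₁ : Type) [Fintype Ω] (Q : Ω → ℝ) (w₁ : Ω → d.Om) (x₁ : Ω → ξ₁)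
        (M : ξ₁ → Fin c → Fin c → ℝ), IsLaw Q → (∀ ω, law Q w₁ ω = d.P ω) →
        Det Q x₁ (fun v => (d.vis (w₁ v), d.T (w₁ v))) → (∀ t, ZOK kmax (M t)) →
        Pr Q {v | ∃ j : ℕ, (j + 2) * (m * ⌊κ * d.X⌋₊) ≤ d.X ∧
          ∑ r ∈ Finset.Ico (j * (m * ⌊κ * d.X⌋₊)) ((j + 1) * (m * ⌊κ * d.X⌋₊)),
            wtz Q (fun v => nz (M (x₁ v)) (d.N (w₁ v))) x₁ d.X (d.X + k + 1 - r) K D v <
              u * (m * ⌊κ * d.X⌋₊ : ℕ)} ≤ π₁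

/-! ### ACTR: the velocity is active on runs -/

/-- **ACTR.** On a typical line every block of length `2 ⌊η X⌋` has a proportion `c₂` of places
`j` such that the velocity is active at `j`, `j + 1`, .., `j + R`. The proportion does not depend
on `R`. -/
def ACTRStmt (c : ℕ) : Prop :=
  ∀ ca : ℝ, 0 < ca → ∃ c₂ : ℝ, 0 < c₂ ∧ c₂ ≤ 1 ∧ ∀ R : ℕ, ∃ (c₁ : ℝ) (k₇ : ℕ), 0 < c₁ ∧
    ∀ (A : ℕ) (η π₁ : ℝ), 0 < η → η ≤ 1 → 0 < π₁ → ∃ (π₀ : ℝ) (X₀ : ℕ), 0 < π₀ ∧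
      ∀ d : Dat c, d.OK A → X₀ ≤ d.X → d.H4 ca η π₀ →
        Pr d.P {ω | ∃ i : ℕ, i + 2 * ⌊η * d.X⌋₊ ≤ d.X ∧
          (Set.ncard {j | i ≤ j ∧ j < i + 2 * ⌊η * d.X⌋₊ ∧
            ∀ o ≤ R, d.act c₁ k₇ (j + o) (d.L ω)} : ℝ) < c₂ * (2 * ⌊η * d.X⌋₊ : ℕ)} ≤ π₁

/-! ### TIM: the times -/

/-- **TIM.** For typical samples and most scales the next digit of the time is not nearly
determined on the line, and times much nearer than the scale are rare (`R` depends on `δ` only);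
coarse partners have macroscopically large distances. -/
def TIMStmt (c : ℕ) : Prop :=
  ∀ δ : ℝ, 0 < δ → ∃ R : ℕ, ∀ κ₂ π₁ : ℝ, 0 < κ₂ → κ₂ ≤ 1 / 4 → 0 < π₁ → ∃ (ι : ℝ) (X₀ : ℕ),
    0 < ι ∧ ∀ (d : Dat c) (A : ℕ), d.OK A → X₀ ≤ d.X → d.H1 ι →
      Pr d.P {ω | δ * ⌊κ₂ * d.X⌋₊ < (Set.ncard {i : ℕ | ⌊κ₂ * d.X⌋₊ ≤ i ∧
        i < 2 * ⌊κ₂ * d.X⌋₊ ∧
        Pr (d.pk i ω) {v | d.Ti (i + 1) v = d.Ti (i + 1) ω} < 1 / 3} : ℝ)} ≤ π₁ ∧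
      Pr d.P {ω | δ * ⌊κ₂ * d.X⌋₊ < ∑ i ∈ Finset.Ico ⌊κ₂ * d.X⌋₊ (2 * ⌊κ₂ * d.X⌋₊),
        Pr (d.pk i ω) {v | |d.th (d.T v) - d.th (d.T ω)| < (2 : ℝ) ^ (-((i : ℤ) + R))}} ≤ π₁ ∧
      Pr d.P {ω | δ < Pr (d.pl ω)
        {v | |d.th (d.T v) - d.th (d.T ω)| < (2 : ℝ) ^ (-(κ₂ * d.X))}} ≤ π₁

/-! ### REL: mates -/

section

variable {c : ℕ}

/-- The pair of partners is admissible for the coordinates `M`: base time `t`, mates at the time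
`tm`, partner at the time `tb`, much nearer to the base. -/
def Adm (d : Dat c) (M : Fin c → Fin c → ℝ) (kz g : ℕ) (t tm tb : d.Tau) : Prop :=
  d.th tb ≠ d.th t ∧
    |d.th tb - d.th t| ≤ (2 : ℝ) ^ (-((kz : ℤ) + g + 3)) * |d.th tm - d.th t| ∧
    (∀ i, |zc M (d.chi t tm) i| ≤ 2 ^ kz) ∧ ∀ i, |zc M (d.chi t tb) i| ≤ 2 ^ kz

/-- The sum of the scales of the two partners. -/
noncomputable def mus (d : Dat c) (t tm tb : d.Tau) : ℤ :=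
  sc (d.th tm - d.th t) + sc (d.th tb - d.th t)

end

open Classical in
/-- **REL.** `w₁` base, `wm` time of the mates, `w₀` partner, `x₁` the reference context (it
determines the coordinates `M`), `x` all the times and the context of the line. The level of the
rows is that of `k = kz + 4`. -/
def RELStmt (c : ℕ) : Prop :=
  ∀ (k₇ kz g : ℕ) (c₁ ε : ℝ), 0 < c₁ → 0 < ε → ∃ D₀ : ℝ, ∀ D : ℝ, D₀ ≤ D → ∀ K : ℕ,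
    ∃ (r₁ : ℕ) (δ : ℝ) (C : Cov c), 0 < δ ∧ C.Unit ∧ ∀ (A kmax : ℕ) (d : Dat c), d.OK A →
      d.H2 δ → d.H3 δ →
      ∀ (Ω ξ₁ ξ : Type) [Fintype Ω] (Q : Ω → ℝ) (w₁ wm w₀ : Ω → d.Om) (x₁ : Ω → ξ₁) (x : Ω → ξ)
        (M : ξ₁ → Fin c → Fin c → ℝ), IsLaw Q →
        (∀ ω, law Q w₁ ω = d.P ω) → (∀ ω, law Q wm ω = d.P ω) → (∀ ω, law Q w₀ ω = d.P ω) →
        (∀ v, 0 < Q v → d.L (wm v) = d.L (w₁ v) ∧ d.L (w₀ v) = d.L (w₁ v)) →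
        Det Q x₁ (fun v => (d.vis (w₁ v), d.T (w₁ v))) →
        Det Q x (fun v => (x₁ v, d.T (wm v), d.T (w₀ v), d.B (w₁ v))) →
        Pool.KVA.MI Q (fun v => d.L (w₁ v)) x (fun v => d.B (w₁ v)) ≤ δ * d.X →
        Pool.KVA.MI Q (fun v => d.N (w₁ v)) (fun v => d.B (w₁ v)) x₁ ≤ δ * d.X →
        (∀ t, ZOK kmax (M t)) →
        ∑ v, Q v * ∑ r ∈ Finset.Ico (r₁ + A + kmax) (d.X - (r₁ + A + kmax)),
          (if Adm d (M (x₁ v)) kz g (d.T (w₁ v)) (d.T (wm v)) (d.T (w₀ v)) ∧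
              0 ≤ (r : ℤ) - mus d (d.T (w₁ v)) (d.T (wm v)) (d.T (w₀ v)) ∧
              d.act c₁ k₇ ((r : ℤ) - mus d (d.T (w₁ v)) (d.T (wm v)) (d.T (w₀ v))).toNat
                (d.L (w₁ v)) then
            (∑ u : Fin c → Fin (2 ^ d.X),
              if low Q (sh (fun v => nz (M (x₁ v)) (d.N (w₁ v))) u) x₁ (d.X + (kz + 4) + 1 - r)
                  K D v ∧
                (2 : ℝ) ^ (-(g : ℤ)) <
                  |∑ i, C ξ₁ (law Q (fun v => (nz (M (x₁ v)) (d.N (w₁ v)), x₁ v))) d.X r u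
                      (nz (M (x₁ v)) (d.N (w₁ v))) (x₁ v) i *
                    (zc (M (x₁ v)) (d.chi (d.T (w₁ v)) (d.T (wm v))) i +
                      zc (M (x₁ v)) (d.chi (d.T (w₁ v)) (d.T (w₀ v))) i)|
              then (1 : ℝ) else 0) / (2 : ℝ) ^ (c * d.X)
          else 0) ≤ ε * d.X

/-! ### schemes of references -/

section

variable {c : ℕ} (d : Dat c) {R : Type} [Fintype R] (Q : R → ℝ) (w₀ : R → d.Om)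
  (w ρ : Fin c → R → d.Om)

/-- The reference context of a scheme. -/
def xr (v : R) : (d.Vt × d.Tau) × (Fin c → d.Tau) :=
  ((d.vis (w₀ v), d.T (w₀ v)), fun k => d.T (ρ k v))

/-- A scheme of references: the samples `w k` have the same point as `w₀`, the reference `ρ k` is
on the line of `w k`. -/
structure Sch (δ : ℝ) : Prop where
  law : IsLaw Q
  l0 : ∀ ω, Pool.Agent.H49.Ent.law Q w₀ ω = d.P ω
  lw : ∀ k ω, Pool.Agent.H49.Ent.law Q (w k) ω = d.P ω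
  lr : ∀ k ω, Pool.Agent.H49.Ent.law Q (ρ k) ω = d.P ω
  pt : ∀ v, 0 < Q v → ∀ k, d.pt (w k v) = d.pt (w₀ v)
  ln : ∀ v, 0 < Q v → ∀ k, d.L (ρ k v) = d.L (w k v)
  mi : ∀ k, Pool.KVA.MI Q (fun v => d.L (w k v)) (xr d w₀ ρ) (fun v => d.B (w k v)) ≤ δ * d.X
  mn : ∀ k, Pool.KVA.MI Q (fun v => d.N (w₀ v)) (fun v => d.B (w k v)) (xr d w₀ ρ) ≤ δ * d.X

/-- `M` is a matrix of coordinates for which the references are the unit vectors. -/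
def Crd (kmax : ℕ) (v : R) (M : Fin c → Fin c → ℝ) : Prop :=
  ZOK kmax M ∧ ∀ k, zc M (d.chi (d.T (w₀ v)) (d.T (ρ k v))) = Pi.single k 1

/-- The references are good: they span, they are not too near, and most of the fine samples of
the lines of the references have bounded coordinates. -/
def Good (n kz kmax : ℕ) (dd : ℝ) : Set R :=
  {v | (∃ M, Crd d w₀ ρ kmax v M) ∧
    (∀ k, (2 : ℝ) ^ (-(3 * (n : ℤ))) ≤ |d.th (d.T (ρ k v)) - d.th (d.T (w₀ v))|) ∧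
    ∀ M, Crd d w₀ ρ kmax v M → ∀ k,
      d.fm n (w k v) {a | ∃ i, (2 : ℝ) ^ kz < |zc M (d.chi (d.T (w₀ v)) (d.T a)) i|} ≤ dd}

end

/-- **CORE.** There is no scheme of references which is good with positive probability. -/
def COREStmt (c : ℕ) : Prop :=
  ∀ c₀ ca : ℝ, 0 < c₀ → 0 < ca → ∃ uu dd : ℝ, 0 < uu ∧ uu ≤ 1 / 8 ∧ 0 < dd ∧
    ∀ (A kz : ℕ) (ν q₀ : ℝ), 0 < ν → ν ≤ uu → 0 < q₀ → ∃ (η κ π₀ ι : ℝ) (X₀ : ℕ), 0 < η ∧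
      η ≤ 1 ∧ 0 < κ ∧ κ ≤ 1 ∧ 0 < π₀ ∧ 0 < ι ∧ ∀ d : Dat c, d.OK A → X₀ ≤ d.X → d.H1 ι →
        d.H2 ι → d.H3 ι → d.H4 ca η π₀ → d.H5 c₀ κ π₀ →
        ∀ (R : Type) [Fintype R] (Q : R → ℝ) (w₀ : R → d.Om) (w ρ : Fin c → R → d.Om)
          (kmax : ℕ), Sch d Q w₀ w ρ ι → (kmax : ℝ) ≤ uu * d.X →
          Pr Q (Good d w₀ w ρ ⌊ν * d.X⌋₊ kz kmax dd) < q₀

/-- CORE from the rows. -/
def COREofStmt (c : ℕ) : Prop :=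
  NFRStmt c → ACTRStmt c → TIMStmt c → RELStmt c → Pool.OCM.OneStmt.{0, 0} → COREStmt c

/-! ### the references (codimension 2) -/

/-- **GEO.** In codimension `2` there is a good scheme of references. `kz = 2`. -/
def GEOStmt : Prop :=
  ∀ p₀ uu dd : ℝ, 0 < p₀ → 0 < uu → 0 < dd → ∃ ν x₀ q₀ ε ι : ℝ, ∃ X₀ : ℕ, 0 < ν ∧ ν ≤ uu ∧
    0 < x₀ ∧ 0 < q₀ ∧ 0 < ε ∧ 0 < ι ∧ ∀ (A : ℕ) (d : Dat 2) (ι' : ℝ), d.OK A → X₀ ≤ d.X →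
      ι' ≤ ι → d.H1 ι' → d.H2 ι' → d.H7 ι' → d.H6a x₀ p₀ ε → d.H6b x₀ p₀ ε →
      ∃ (R : Type) (_ : Fintype R) (Q : R → ℝ) (w₀ : R → d.Om) (w ρ : Fin 2 → R → d.Om)
        (kmax : ℕ), Sch d Q w₀ w ρ (20 * ι') ∧ (kmax : ℝ) ≤ uu * d.X ∧
        q₀ ≤ Pr Q (Good d w₀ w ρ ⌊ν * d.X⌋₊ 2 kmax dd)

/-- The pure statement for one line: `χ` fine, `ψ` coarse vectors of the plane. One of the three
kinds of pairs of references is good with positive probability. -/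
def GEOSStmt : Prop :=
  ∀ dd p₁ : ℝ, 0 < dd → 0 < p₁ → ∃ q₀ : ℝ, ∃ C : ℕ, 0 < q₀ ∧
    ∀ (S T : Type) [Fintype S] [Fintype T] (μ : S → ℝ) (ν : T → ℝ) (χ : S → Fin 2 → ℝ)
      (ψ : T → Fin 2 → ℝ) (a b : ℕ), IsLaw μ → IsLaw ν → 1 ≤ a → 1 ≤ b →
      Pr μ {s | ∃ i, (2 : ℝ) ^ b < |χ s i|} ≤ dd / 16 →
      (∀ n : Fin 2 → ℝ, (∀ i, |n i| ≤ 1) → (∃ i, |n i| = 1) →
        p₁ ≤ Pr ν {t | (2 : ℝ) ^ (-(a : ℤ)) ≤ |∑ i, n i * ψ t i| ∧ ∀ i, |ψ t i| ≤ 2 ^ a}) →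
      let ok : (Fin 2 → ℝ) → (Fin 2 → ℝ) → Prop := fun p q =>
        (∃ M, ZOK (C * (a + b)) M ∧ zc M p = Pi.single 0 1 ∧ zc M q = Pi.single 1 1) ∧
        ∀ M, zc M p = Pi.single 0 1 → zc M q = Pi.single 1 1 →
          Pr μ {s | ∃ i, (2 : ℝ) ^ 2 < |zc M (χ s) i|} ≤ dd
      q₀ ≤ Pr (fun w : T × T => ν w.1 * ν w.2) {w | ok (ψ w.1) (ψ w.2)} ∨
      q₀ ≤ Pr (fun w : S × S => μ w.1 * μ w.2) {w | ok (χ w.1) (χ w.2)} ∨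
      q₀ ≤ Pr (fun w : S × T => μ w.1 * ν w.2) {w | ok (χ w.1) (ψ w.2)}

/-- The pure statement for two lines: the vectors of each line are nearly parallel, the two
directions are transversal. One of the four kinds of pairs of references is good with positive
probability. `B` is much larger than `a` and `b`. -/
def GEODStmt : Prop :=
  ∀ dd p₁ : ℝ, 0 < dd → 0 < p₁ → ∃ q₀ : ℝ, ∃ C : ℕ, 0 < q₀ ∧
    ∀ (S T : Fin 2 → Type) [∀ k, Fintype (S k)] [∀ k, Fintype (T k)] (μ : ∀ k, S k → ℝ)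
      (ν : ∀ k, T k → ℝ) (χ : ∀ k, S k → Fin 2 → ℝ) (ψ : ∀ k, T k → Fin 2 → ℝ)
      (n : Fin 2 → Fin 2 → ℝ) (a b B : ℕ), (∀ k, IsLaw (μ k)) → (∀ k, IsLaw (ν k)) →
      1 ≤ a → 1 ≤ b → C * (a + b) ≤ B →
      (∀ k, (∀ i, |n k i| ≤ 1) ∧ ∃ i, |n k i| = 1) →
      (2 : ℝ) ^ (-(a : ℤ)) ≤ |n 0 0 * n 1 1 - n 0 1 * n 1 0| →
      (∀ k, Pr (μ k) {s | (∃ i, (2 : ℝ) ^ b < |χ k s i|) ∨
        (2 : ℝ) ^ (-(B : ℤ)) < |∑ i, n k i * χ k s i|} ≤ dd / 16) →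
      (∀ k, p₁ ≤ Pr (ν k) {t | (∃ i, (2 : ℝ) ^ (-(a : ℤ)) ≤ |ψ k t i|) ∧
        (∀ i, |ψ k t i| ≤ 2 ^ a) ∧ |∑ i, n k i * ψ k t i| ≤ (2 : ℝ) ^ (-(B : ℤ))}) →
      let ok : (Fin 2 → ℝ) → (Fin 2 → ℝ) → Prop := fun p q =>
        (∃ M, ZOK (C * (a + b)) M ∧ zc M p = Pi.single 0 1 ∧ zc M q = Pi.single 1 1) ∧
        ∀ M, zc M p = Pi.single 0 1 → zc M q = Pi.single 1 1 → ∀ k,
          Pr (μ k) {s | ∃ i, (2 : ℝ) ^ 2 < |zc M (χ k s) i|} ≤ dd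
      q₀ ≤ Pr (fun w : S 0 × S 1 => μ 0 w.1 * μ 1 w.2) {w | ok (χ 0 w.1) (χ 1 w.2)} ∨
      q₀ ≤ Pr (fun w : S 0 × T 1 => μ 0 w.1 * ν 1 w.2) {w | ok (χ 0 w.1) (ψ 1 w.2)} ∨
      q₀ ≤ Pr (fun w : T 0 × S 1 => ν 0 w.1 * μ 1 w.2) {w | ok (ψ 0 w.1) (χ 1 w.2)} ∨
      q₀ ≤ Pr (fun w : T 0 × T 1 => ν 0 w.1 * ν 1 w.2) {w | ok (ψ 0 w.1) (ψ 1 w.2)}

end Pool.OCV
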