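import Pool.Agent.H98.OCV.Core4
import Pool.Agent.H86.OCV.Rela3
import Pool.Agent.H17.OCM.RelF
import Pool.Agent.H66.OCV.GeoThm
import Pool.Agent.H45.OCV.Real

/-!
# Theorem OCV in codimension `2`, without hypotheses
-/

set_option autoImplicit false

namespace Pool.OCV

/-- **CORE** in every positive codimension. -/
theorem core_thm (c : ℕ) (hc : 0 < c) : COREStmt c :=
  core_of_rela c (rela_of c (Pool.OCV.M17.rel_fin hc))

/-- **Theorem OCV** in codimension `2`. -/
theorem ocv_thm : OCVStmt 2 := ocv_of (core_thm 2 (by norm_num)) geo_thm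

/-- The real form. -/
theorem ocvr2 : OCVRStmt 2 := ocvr_thm ocv_thm

end Pool.OCV
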