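import Pool.Agent.H98.OCM.Defs

/-!
# Theorem OCV (OC in codimension `c`, family of contexts): definitions

A family of contexts: `b` is the context of the line (known on the whole window), `vis` is the
visible part of the context (a function of the context and of the time, in the application a
function of the exact point of the line at the time). `N` is the normal position at the time, `T`
the time together with the digits of the frames at the time. All lines through one value of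
`(vis, N, T)` are compared, whatever their contexts.
-/

set_option autoImplicit false

namespace Pool.OCV

open Finset Real
open Pool.Agent.H49.Ent Pool.Agent.H32.Dense Pool.STK Pool.KAF
open Pool.OCM

/-- The data of the theorem. -/
structure Dat (c : ℕ) where
  Om : Type
  Lam : Type
  Tau : Type
  Bt : Type
  Vt : Type
  [fin : Fintype Om]
  P : Om → ℝ
  L : Om → Lam
  T : Om → Tau
  b : Lam → Bt
  vis : Om → Vt
  y : Lam → ℤ
  om : Lam → ℤ
  be : Lam → Fin c → ℤ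
  N : Om → Fin c → ℤ
  th : Tau → ℝ
  S : Tau → Fin c → ℝ
  kn : Bt → Tau → Fin c → ℝ
  X : ℕ

attribute [instance] Dat.fin

namespace Dat

variable {c : ℕ} (d : Dat c)

/-- The tangential position at time zero. -/
noncomputable def yR (l : d.Lam) : ℝ := d.y l / 2 ^ d.X

/-- The tangential velocity. -/
noncomputable def omR (l : d.Lam) : ℝ := d.om l / 2 ^ d.X

/-- The normal velocity. -/
noncomputable def beR (l : d.Lam) (i : Fin c) : ℝ := d.be l i / 2 ^ d.X

/-- The digits of the line. -/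
def V (l : d.Lam) : ℤ × ℤ × (Fin c → ℤ) := (d.y l, d.om l, d.be l)

/-- The difference of the normal positions at the times `t₀` and `t₁`. -/
noncomputable def ZR (t₁ t₀ : d.Tau) (l : d.Lam) (i : Fin c) : ℝ :=
  (d.th t₀ - d.th t₁) * d.beR l i - (d.S t₀ i - d.S t₁ i) * d.yR l -
    (d.S t₀ i * d.th t₀ - d.S t₁ i * d.th t₁) * d.omR l

/-- The tangential position at the time `t`. -/
noncomputable def yt (t : d.Tau) (l : d.Lam) : ℝ := d.yR l + d.th t * d.omR l

/-- The normal velocity in the frame of the time `t`. -/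
noncomputable def bt (t : d.Tau) (l : d.Lam) (i : Fin c) : ℝ := d.beR l i - d.S t i * d.omR l

/-- The digits of the position and of the normal velocity of the line at the time of a sample. -/
noncomputable def Yt (t : d.Tau) (l : d.Lam) : ℤ × (Fin c → ℤ) :=
  (⌊(2 : ℝ) ^ d.X * d.yt t l⌋, fun i => ⌊(2 : ℝ) ^ d.X * d.bt t l i⌋)

/-- The row `r` of the normal position. -/
def row (r : ℕ) (ω : d.Om) : Fin c → ℤ := fun i => d.N ω i / 2 ^ (d.X - r)

/-- The first `i` digits of the time. -/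
noncomputable def Ti (i : ℕ) (ω : d.Om) : ℤ := ⌊(2 : ℝ) ^ i * d.th (d.T ω)⌋

/-- The first `i` digits of the tangential velocity. -/
noncomputable def omi (i : ℕ) (ω : d.Om) : ℤ := ⌊(2 : ℝ) ^ i * d.omR (d.L ω)⌋

/-- The context of the line of a sample. -/
def B (ω : d.Om) : d.Bt := d.b (d.L ω)

/-- The point of a sample: all lines through it are compared. -/
def pt (ω : d.Om) : d.Vt × (Fin c → ℤ) × d.Tau := (d.vis ω, d.N ω, d.T ω)

/-- The samples on the line of `ω` with the same first `i` digits of the time. -/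
noncomputable def pk (i : ℕ) (ω : d.Om) : d.Om → ℝ :=
  cond d.P (fun v => (d.L v, d.Ti i v)) (d.L ω, d.Ti i ω)

/-- The samples on the line of `ω`. -/
noncomputable def pl (ω : d.Om) : d.Om → ℝ := cond d.P d.L (d.L ω)

/-- The samples with the same point as `ω`. -/
noncomputable def pp (ω : d.Om) : d.Om → ℝ := cond d.P d.pt (d.pt ω)

/-- The basic assumptions. -/
structure OK (A : ℕ) : Prop where
  law : IsLaw d.P
  hy : ∀ ω, 0 < d.P ω → |d.yR (d.L ω)| ≤ 2 ^ A
  hom : ∀ ω, 0 < d.P ω → |d.omR (d.L ω)| ≤ 2 ^ A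
  hbe : ∀ ω, 0 < d.P ω → ∀ i, |d.beR (d.L ω) i| ≤ 2 ^ A
  hN : Det d.P (fun ω => (d.L ω, d.T ω)) d.N
  hv : Det d.P (fun ω => (d.B ω, d.T ω)) d.vis
  hth : ∀ t, 0 ≤ d.th t ∧ d.th t < 1
  hS : ∀ t i, |d.S t i| ≤ 1
  hZ : ∀ ω ω', 0 < d.P ω → 0 < d.P ω' → d.L ω = d.L ω' → ∀ i,
    |((d.N ω' i : ℝ) - d.N ω i) - (2 ^ d.X * d.ZR (d.T ω) (d.T ω') (d.L ω) i +
      (d.kn (d.B ω) (d.T ω') i - d.kn (d.B ω) (d.T ω) i))| ≤ 8

/-- (H1) the time is nearly independent of the line given the context and its digits are full. -/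
def H1 (ι : ℝ) : Prop :=
  Pool.KVA.MI d.P d.T d.L d.B ≤ ι * d.X ∧
  (1 - ι) * d.X * Real.log 2 ≤ CH d.P (d.Ti d.X) d.L

/-- (H2) the normal position is nearly independent of the line given the context and the time. -/
def H2 (ι : ℝ) : Prop :=
  Pool.KVA.MI d.P d.N (fun ω => d.V (d.L ω)) (fun ω => (d.B ω, d.T ω)) ≤ ι * d.X

/-- (H3') the tangential velocity is nearly independent of the data of the line at the time. -/
def H3 (ι : ℝ) : Prop :=
  Pool.KVA.MI d.P (fun ω => d.om (d.L ω)) (fun ω => d.Yt (d.T ω) (d.L ω))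
    (fun ω => (d.B ω, d.T ω)) ≤ ι * d.X

/-- (H4') the tangential velocity is active in every block, on every large event. -/
def H4 (ca η π₀ : ℝ) : Prop :=
  ∀ j : ℕ, (j + 1) * ⌊η * d.X⌋₊ ≤ d.X → ∀ E : Set d.Om, π₀ ≤ Pr d.P E →
    ca * ⌊η * d.X⌋₊ * Real.log 2 ≤
      CH (cond d.P (fun ω => ω ∈ E) True) (d.omi ((j + 1) * ⌊η * d.X⌋₊))
        (fun ω => (d.omi (j * ⌊η * d.X⌋₊) ω, d.B ω))

/-- (H5) the blocks of rows of the normal position are not full on any large event. -/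
def H5 (c₀ κ π₀ : ℝ) : Prop :=
  ∀ j : ℕ, (j + 1) * ⌊κ * d.X⌋₊ ≤ d.X → ∀ E : Set d.Om, π₀ ≤ Pr d.P E →
    CH (cond d.P (fun ω => ω ∈ E) True) (d.row ((j + 1) * ⌊κ * d.X⌋₊))
      (fun ω => (d.row (j * ⌊κ * d.X⌋₊) ω, (d.vis ω, d.T ω))) ≤
        (c - c₀) * ⌊κ * d.X⌋₊ * Real.log 2

/-- (H6a) on a typical line the slope is not constant. -/
def H6a (x₀ p₀ ε : ℝ) : Prop :=
  Pr d.P {ω | Pr (d.pl ω)
    {ρ | ∃ i, (2 : ℝ) ^ (-(x₀ * d.X)) ≤ |d.S (d.T ρ) i - d.S (d.T ω) i|} < p₀} ≤ ε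

/-- (H6b) for a typical point no combination of the slopes is constant on the lines through the
point. -/
def H6b (x₀ p₀ ε : ℝ) : Prop :=
  Pr d.P {ω | ∃ n : Fin c → ℝ, (∀ i, |n i| ≤ 1) ∧ (∃ i, |n i| = 1) ∧
    ∑ ω', d.pp ω ω' * Pr (d.pl ω')
      {ρ | (2 : ℝ) ^ (-(x₀ * d.X)) ≤ |∑ i, n i * (d.S (d.T ρ) i - d.S (d.T ω) i)|} < p₀} ≤ ε

/-- (H7) the normal position is nearly independent of the context given its visible part. -/
def H7 (ι : ℝ) : Prop := Pool.KVA.MI d.P d.N d.B (fun ω => (d.vis ω, d.T ω)) ≤ ι * d.X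

/-- The slope of the path `S` between two times. -/
noncomputable def chi (t t' : d.Tau) (i : Fin c) : ℝ :=
  (d.S t' i - d.S t i) / (d.th t' - d.th t)

/-- The velocity is active at the digit `j`: seen from the line `l` the law of the velocity, given
the context and the first `j` digits, is not concentrated near that of `l`. -/
def act (c₁ : ℝ) (k₇ j : ℕ) (l : d.Lam) : Prop :=
  c₁ ≤ Pr (cond d.P (fun ω => (⌊(2 : ℝ) ^ j * d.omR (d.L ω)⌋, d.B ω))
    (⌊(2 : ℝ) ^ j * d.omR l⌋, d.b l))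
      {ω | (2 : ℝ) ^ (-((j : ℤ) + k₇)) ≤ |d.omR (d.L ω) - d.omR l|}

/-- The mean over the scales `n ≤ i < 2 n` of the mass of a set of samples. -/
noncomputable def fm (n : ℕ) (ω : d.Om) (E : Set d.Om) : ℝ :=
  (∑ i ∈ Finset.Ico n (2 * n), Pr (d.pk i ω) E) / n

end Dat

/-- **Theorem OCV.** -/
def OCVStmt (c : ℕ) : Prop :=
  ∀ (A : ℕ) (c₀ ca p₀ : ℝ), 0 < c₀ → 0 < ca → 0 < p₀ → ∃ (x₀ η κ π₀ ι ε : ℝ) (X₀ : ℕ), 0 < x₀ ∧
    0 < η ∧ η ≤ 1 ∧ 0 < κ ∧ κ ≤ 1 ∧ 0 < π₀ ∧ 0 < ι ∧ 0 < ε ∧ ∀ d : Dat c, d.OK A → X₀ ≤ d.X →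
      d.H1 ι → d.H2 ι → d.H3 ι → d.H4 ca η π₀ → d.H5 c₀ κ π₀ → d.H6a x₀ p₀ ε → d.H6b x₀ p₀ ε →
        d.H7 ι → False

end Pool.OCV
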