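import Pool.Agent.H98.OCV.Line

/-!
# Theorem OCV: the first half of CORE

`RELA`: REL for the base `w k v`, mates and partner fine samples of its line or the reference
`ρ k v`, written on the space of the scheme.
-/

set_option autoImplicit false

namespace Pool.OCV

open Finset Real
open Pool.Agent.H49.Ent Pool.Agent.H32.Dense Pool.STK Pool.KAF
open Pool.OCM Line
open Pool.OC (sc)

section

variable {c : ℕ} (d : Dat c) (C : Cov c) {R : Type} [Fintype R] (Q : R → ℝ) (w₀ : R → d.Om)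
  (ρ : Fin c → R → d.Om) (M : (d.Vt × d.Tau) × (Fin c → d.Tau) → Fin c → Fin c → ℝ)

/-- The normal position in the coordinates of the references. -/
noncomputable def nq (v : R) : Fin c → ℤ := nz (M (xr d w₀ ρ v)) (d.N (w₀ v))

/-- The covector of the row `r` and the shift `u`. -/
noncomputable def cov (v : R) (r : ℕ) (u : Fin c → Fin (2 ^ d.X)) : Fin c → ℝ :=
  C ((d.Vt × d.Tau) × (Fin c → d.Tau))
    (law Q (fun v => (nq d w₀ ρ M v, xr d w₀ ρ v))) d.X r u (nq d w₀ ρ M v) (xr d w₀ ρ v)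

/-- The value of the covector on the slope between the base and the time of a sample. -/
noncomputable def phi (v : R) (r : ℕ) (u : Fin c → Fin (2 ^ d.X)) (a : d.Om) : ℝ :=
  ∑ i, cov d C Q w₀ ρ M v r u i *
    zc (M (xr d w₀ ρ v)) (d.chi (d.T (w₀ v)) (d.T a)) i

/-- The rows are not full at the row `r` and the shift `u`. -/
def lw (kz K : ℕ) (D : ℝ) (v : R) (r : ℕ) (u : Fin c → Fin (2 ^ d.X)) : Prop :=
  low Q (sh (nq d w₀ ρ M) u) (xr d w₀ ρ) (d.X + (kz + 4) + 1 - r) K D v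

open Classical in
/-- Mean over the samples of the scheme, the rows and the shifts. -/
noncomputable def mn (kz K : ℕ) (D : ℝ) (I : Finset ℕ)
    (f : R → ℕ → (Fin c → Fin (2 ^ d.X)) → ℝ) : ℝ :=
  ∑ v, Q v * ∑ r ∈ I, (∑ u : Fin c → Fin (2 ^ d.X),
    if lw d Q w₀ ρ M kz K D v r u then f v r u else 0) / (2 : ℝ) ^ (c * d.X)

end

/-- **RELA.** -/
def RELAStmt (c : ℕ) : Prop :=
  ∀ (k₇ kz g : ℕ) (c₁ ε : ℝ), 0 < c₁ → 0 < ε → ∃ D₀ : ℝ, ∀ D : ℝ, D₀ ≤ D → ∀ K : ℕ,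
    ∃ (r₁ : ℕ) (δ : ℝ) (C : Cov c), 0 < δ ∧ C.Unit ∧ ∀ (A kmax : ℕ) (d : Dat c), d.OK A →
      d.H1 δ → d.H2 δ → d.H3 δ →
      ∀ (R : Type) [Fintype R] (Q : R → ℝ) (w₀ : R → d.Om) (w ρ : Fin c → R → d.Om)
        (M : (d.Vt × d.Tau) × (Fin c → d.Tau) → Fin c → Fin c → ℝ), Sch d Q w₀ w ρ δ →
        (∀ t, ZOK kmax (M t)) → ∀ (k : Fin c) (i j : ℕ),
        mn d Q w₀ ρ M kz K D (Finset.Ico (r₁ + A + kmax) (d.X - (r₁ + A + kmax)))
          (fun v r u => fl (d.pk i (w k v)) (d.pk j (w k v))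
            (Bad d (M (xr d w₀ ρ v)) kz g k₇ c₁ r (w k v) (phi d C Q w₀ ρ M v r u))) ≤ ε * d.X ∧
        mn d Q w₀ ρ M kz K D (Finset.Ico (r₁ + A + kmax) (d.X - (r₁ + A + kmax)))
          (fun v r u => ms (d.pk j (w k v))
            (fun a => Bad d (M (xr d w₀ ρ v)) kz g k₇ c₁ r (w k v)
              (phi d C Q w₀ ρ M v r u) (ρ k v) a)) ≤ ε * d.X ∧
        mn d Q w₀ ρ M kz K D (Finset.Ico (r₁ + A + kmax) (d.X - (r₁ + A + kmax)))
          (fun v r u => ms (d.pk j (w k v))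
            (fun a => Bad d (M (xr d w₀ ρ v)) kz g k₇ c₁ r (w k v)
              (phi d C Q w₀ ρ M v r u) a (ρ k v))) ≤ ε * d.X

/-- RELA from REL. -/
def RELAofStmt (c : ℕ) : Prop := RELStmt c → RELAStmt c

end Pool.OCV
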