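import Pool.Agent.H98.OCV.Core0

/-!
# OCV: the second half of CORE
-/

set_option autoImplicit false

namespace Pool.OCV

open Finset Real
open Pool.Agent.H49.Ent Pool.Agent.H32.Dense Pool.STK Pool.KAF
open Pool.OCM Line
open Pool.OC (sc Pr_or)

namespace Core

/-- The sizes. -/
theorem sizes {ν : ℝ} {q N₁ a R₀ X kmax : ℕ} (hν : 0 < ν) (hν1 : ν ≤ 1 / 64) (hq : 0 < q)
    (hX : ⌈((N₁ : ℝ) + 1) / ν⌉₊ + ⌈8 * (q : ℝ) / ν⌉₊ + 8 * (a + 2) + 16 * (R₀ + 2) + 8 ≤ X)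
    (hk : (kmax : ℝ) ≤ 1 / 64 * X) :
    N₁ ≤ ⌊ν * X⌋₊ ∧ 0 < ⌊ν / (8 * q) * (X : ℝ)⌋₊ ∧
      2 * ⌊ν / (8 * q) * (X : ℝ)⌋₊ ≤ ⌊ν * X⌋₊ / q ∧
      a + kmax ≤ ⌊(1 / 4 : ℝ) * X⌋₊ ∧ 3 * ⌊(1 / 4 : ℝ) * X⌋₊ ≤ X ∧
      2 * ⌊(1 / 4 : ℝ) * X⌋₊ ≤ X - (a + kmax) ∧
      5 * ⌊ν * X⌋₊ + 2 * R₀ + 1 ≤ ⌊(1 / 4 : ℝ) * X⌋₊ ∧
      (X : ℝ) / 8 ≤ ⌊(1 / 4 : ℝ) * X⌋₊ := by
  have hqR : (0 : ℝ) < q := by exact_mod_cast hq
  have hX1 : ((N₁ : ℝ) + 1) / ν ≤ X := by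
    refine le_trans (Nat.le_ceil _) ?_
    exact_mod_cast (by omega : ⌈((N₁ : ℝ) + 1) / ν⌉₊ ≤ X)
  have hX2 : 8 * (q : ℝ) / ν ≤ X := by
    refine le_trans (Nat.le_ceil _) ?_
    exact_mod_cast (by omega : ⌈8 * (q : ℝ) / ν⌉₊ ≤ X)
  have hX3 : 8 * ((a : ℝ) + 2) + 16 * ((R₀ : ℝ) + 2) + 8 ≤ X := by
    exact_mod_cast (by omega : 8 * (a + 2) + 16 * (R₀ + 2) + 8 ≤ X)
  rw [div_le_iff₀ hν] at hX1 hX2
  have ha : (0 : ℝ) ≤ a := Nat.cast_nonneg _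
  have hR : (0 : ℝ) ≤ R₀ := Nat.cast_nonneg _
  have hXn : (0 : ℝ) ≤ X := Nat.cast_nonneg _
  have hb1 : (⌊(1 / 4 : ℝ) * X⌋₊ : ℝ) ≤ 1 / 4 * X := Nat.floor_le (by positivity)
  have hb2 : (1 / 4 : ℝ) * X < ⌊(1 / 4 : ℝ) * X⌋₊ + 1 := Nat.lt_floor_add_one _
  have hn1 : (⌊ν * X⌋₊ : ℝ) ≤ ν * X := Nat.floor_le (by positivity)
  have hn2 : ν * X < ⌊ν * X⌋₊ + 1 := Nat.lt_floor_add_one _
  have hnX : ν * X ≤ 1 / 64 * X := mul_le_mul_of_nonneg_right hν1 hXn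
  have hh1 : (⌊ν / (8 * q) * (X : ℝ)⌋₊ : ℝ) ≤ ν / (8 * q) * X := Nat.floor_le (by positivity)
  have hh2 : ν / (8 * q) * (X : ℝ) * (8 * q) = ν * X := by
    field_simp
  set b := ⌊(1 / 4 : ℝ) * X⌋₊
  set n := ⌊ν * X⌋₊
  set h := ⌊ν / (8 * q) * (X : ℝ)⌋₊ with hh
  refine ⟨?_, ?_, ?_, ?_, ?_, ?_, ?_, ?_⟩
  · have : (N₁ : ℝ) ≤ n := by linarith
    exact_mod_cast this
  · rw [hh, Nat.floor_pos]
    have : 1 * (8 * (q : ℝ)) ≤ ν / (8 * q) * (X : ℝ) * (8 * q) := by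
      rw [hh2]
      linarith
    exact le_of_mul_le_mul_right this (by positivity)
  · rw [Nat.le_div_iff_mul_le hq]
    have h1 : (h : ℝ) * (8 * q) ≤ ν * X := by
      rw [← hh2]
      exact mul_le_mul_of_nonneg_right hh1 (by positivity)
    have h2 : ((2 * h * q : ℕ) : ℝ) ≤ n := by
      push_cast
      have h3 : (1 : ℝ) ≤ q := by exact_mod_cast hq
      nlinarith
    exact_mod_cast h2
  · have : ((a + kmax : ℕ) : ℝ) ≤ b := by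
      push_cast
      linarith
    exact_mod_cast this
  · have : ((3 * b : ℕ) : ℝ) ≤ X := by
      push_cast
      linarith
    exact_mod_cast this
  · have : ((2 * b + (a + kmax) : ℕ) : ℝ) ≤ X := by
      push_cast
      linarith
    have h2 : 2 * b + (a + kmax) ≤ X := by exact_mod_cast this
    omega
  · have : ((5 * n + 2 * R₀ + 1 : ℕ) : ℝ) ≤ b := by
      push_cast
      linarith
    exact_mod_cast this
  · linarith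

section

variable {c : ℕ} {d : Dat c} {w : d.Om} {M : Fin c → Fin c → ℝ}

theorem ms_eq_Pr {Ω : Type} [Fintype Ω] (p : Ω → ℝ) (s : Ω → Prop) : ms p s = Pr p {a | s a} := by
  classical
  rw [Pool.KAF.Pr_eq]
  unfold ms
  refine Finset.sum_congr rfl fun a _ => ?_
  by_cases h : s a
  · rw [if_pos h, if_pos (show a ∈ {a | s a} from h)]
  · rw [if_neg h, if_neg (show a ∉ {a | s a} from h)]

theorem hB_of (hp : IsLaw d.P) (hw : 0 < d.P w) {n R₀ kz : ℕ} {e₁ e₂ : ℝ} (hn : 0 < n)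
    (h1 : ∑ i ∈ Finset.Ico n (2 * n),
      Pr (d.pk i w) {v | |d.th (d.T v) - d.th (d.T w)| < (2 : ℝ) ^ (-((i : ℤ) + R₀))} ≤ e₁ * n)
    (h2 : d.fm n w {a | ∃ i, (2 : ℝ) ^ kz < |zc M (d.chi (d.T w) (d.T a)) i|} ≤ e₂) :
    ∑ i ∈ range n, ms (d.pk (n + i) w) (Bs d M kz R₀ w (n + i)) ≤ (e₁ + e₂) * n := by
  have hnR : (0 : ℝ) < n := by exact_mod_cast hn
  unfold Dat.fm at h2
  rw [div_le_iff₀ hnR] at h2
  have key : ∀ i ∈ range n, ms (d.pk (n + i) w) (Bs d M kz R₀ w (n + i)) ≤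
      Pr (d.pk (n + i) w)
        {v | |d.th (d.T v) - d.th (d.T w)| < (2 : ℝ) ^ (-(((n + i : ℕ) : ℤ) + R₀))} +
      Pr (d.pk (n + i) w) {a | ∃ i, (2 : ℝ) ^ kz < |zc M (d.chi (d.T w) (d.T a)) i|} := by
    intro i _
    rw [← ms_eq_Pr, ← ms_eq_Pr]
    exact ms_or (pk_law (w := w) hp hw (n + i)).nonneg fun a _ h => h
  refine le_trans (Finset.sum_le_sum key) ?_
  rw [Finset.sum_add_distrib]
  have e1 := Finset.sum_Ico_eq_sum_range (fun i : ℕ => Pr (d.pk i w)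
    {v | |d.th (d.T v) - d.th (d.T w)| < (2 : ℝ) ^ (-((i : ℤ) + R₀))}) n (2 * n)
  have e2 := Finset.sum_Ico_eq_sum_range (fun i : ℕ => Pr (d.pk i w)
    {a | ∃ i, (2 : ℝ) ^ kz < |zc M (d.chi (d.T w) (d.T a)) i|}) n (2 * n)
  rw [show 2 * n - n = n by omega] at e1 e2
  rw [e1] at h1
  rw [e2] at h2
  linarith

end

end Core

end Pool.OCV
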