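import Pool.Agent.H98.OCV.Stmts3

/-!
# OCV: tools for the second half of CORE
-/

set_option autoImplicit false

namespace Pool.OCV

open Finset Real
open Pool.Agent.H49.Ent Pool.Agent.H32.Dense Pool.STK Pool.KAF
open Pool.OCM Line
open Pool.OC (sc Pr_or)

namespace Core

section pure

variable {R U : Type} [Fintype R] [Fintype U] {Q : R → ℝ} {I I' : Finset ℕ}
  {lw : R → ℕ → U → Prop} {W : ℝ}

open Classical in
/-- Mean over the samples, the rows and the shifts. -/
noncomputable def mA (Q : R → ℝ) (I : Finset ℕ) (lw : R → ℕ → U → Prop) (W : ℝ)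
    (f : R → ℕ → U → ℝ) : ℝ :=
  ∑ v, Q v * ∑ r ∈ I, (∑ u, if lw v r u then f v r u else 0) / W

theorem mA_mul (a : ℝ) (f : R → ℕ → U → ℝ) :
    mA Q I lw W (fun v r u => a * f v r u) = a * mA Q I lw W f := by
  classical
  unfold mA
  rw [Finset.mul_sum]
  refine Finset.sum_congr rfl fun v _ => ?_
  have h : ∀ r, (∑ u, if lw v r u then a * f v r u else 0) / W =
      a * ((∑ u, if lw v r u then f v r u else 0) / W) := by
    intro r
    have h1 : (∑ u, if lw v r u then a * f v r u else 0) =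
        a * ∑ u, if lw v r u then f v r u else 0 := by
      rw [Finset.mul_sum]
      refine Finset.sum_congr rfl fun u _ => ?_
      split_ifs <;> simp
    rw [h1]
    ring
  rw [Finset.sum_congr rfl fun r _ => h r, ← Finset.mul_sum]
  ring

theorem mA_add (f f' : R → ℕ → U → ℝ) :
    mA Q I lw W (fun v r u => f v r u + f' v r u) = mA Q I lw W f + mA Q I lw W f' := by
  classical
  unfold mA
  rw [← Finset.sum_add_distrib]
  refine Finset.sum_congr rfl fun v _ => ?_
  rw [← mul_add, ← Finset.sum_add_distrib]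
  congr 1
  refine Finset.sum_congr rfl fun r _ => ?_
  rw [← add_div, ← Finset.sum_add_distrib]
  congr 1
  refine Finset.sum_congr rfl fun u _ => ?_
  split_ifs <;> simp

theorem mA_sum {J : Type} (s : Finset J) (f : J → R → ℕ → U → ℝ) :
    mA Q I lw W (fun v r u => ∑ j ∈ s, f j v r u) = ∑ j ∈ s, mA Q I lw W (f j) := by
  classical
  induction s using Finset.induction_on with
  | empty =>
    unfold mA
    simp
  | insert a s ha ih =>
    rw [Finset.sum_insert ha, ← ih, ← mA_add]
    congr 1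
    funext v r u
    rw [Finset.sum_insert ha]

theorem mA_nonneg (hQ : ∀ v, 0 ≤ Q v) (hW : 0 < W) {f : R → ℕ → U → ℝ}
    (hf : ∀ v r u, 0 ≤ f v r u) : 0 ≤ mA Q I lw W f := by
  classical
  unfold mA
  refine Finset.sum_nonneg fun v _ => mul_nonneg (hQ v) (Finset.sum_nonneg fun r _ =>
    div_nonneg (Finset.sum_nonneg fun u _ => ?_) hW.le)
  split_ifs
  · exact hf v r u
  · exact le_rfl

theorem mA_mono_I (hQ : ∀ v, 0 ≤ Q v) (hW : 0 < W) (hI : I ⊆ I') {f : R → ℕ → U → ℝ}
    (hf : ∀ v r u, 0 ≤ f v r u) : mA Q I lw W f ≤ mA Q I' lw W f := by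
  classical
  unfold mA
  refine Finset.sum_le_sum fun v _ => mul_le_mul_of_nonneg_left ?_ (hQ v)
  refine Finset.sum_le_sum_of_subset_of_nonneg hI fun r _ _ => div_nonneg
    (Finset.sum_nonneg fun u _ => ?_) hW.le
  split_ifs
  · exact hf v r u
  · exact le_rfl

open Classical in
/-- **Selection.** -/
theorem sel (hQ : ∀ v, 0 ≤ Q v) (hW : 0 < W) {G : R → ℕ → U → ℝ} (hG : ∀ v r u, 0 ≤ G v r u)
    {A : Set R} {p b e s : ℝ} (hA : p ≤ Pr Q A)
    (hb : ∀ v, 0 < Q v → v ∈ A → b ≤ ∑ r ∈ I, (∑ u, if lw v r u then (1 : ℝ) else 0) / W)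
    (hs : mA Q I lw W G ≤ s) (hlt : s < p * (e * b)) (hb0 : 0 ≤ b) (he : 0 ≤ e) :
    ∃ v r u, 0 < Q v ∧ v ∈ A ∧ r ∈ I ∧ lw v r u ∧ G v r u ≤ e := by
  by_contra hcon
  push Not at hcon
  have key : p * (e * b) ≤ mA Q I lw W G := by
    calc p * (e * b) ≤ Pr Q A * (e * b) := mul_le_mul_of_nonneg_right hA (by positivity)
      _ = ∑ v, (if v ∈ A then Q v else 0) * (e * b) := by
          rw [Pool.KAF.Pr_eq, Finset.sum_mul]
      _ ≤ mA Q I lw W G := by
          unfold mA
          refine Finset.sum_le_sum fun v _ => ?_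
          have hnn : 0 ≤ ∑ r ∈ I, (∑ u, if lw v r u then G v r u else 0) / W := by
            refine Finset.sum_nonneg fun r _ => div_nonneg (Finset.sum_nonneg fun u _ => ?_) hW.le
            split_ifs
            · exact hG v r u
            · exact le_rfl
          rcases (hQ v).eq_or_lt with h0 | h0
          · rw [← h0]
            simp
          by_cases hv : v ∈ A
          · rw [if_pos hv]
            refine mul_le_mul_of_nonneg_left ?_ h0.le
            refine le_trans (mul_le_mul_of_nonneg_left (hb v h0 hv) he) ?_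
            rw [Finset.mul_sum]
            refine Finset.sum_le_sum fun r hr => ?_
            rw [← mul_div_assoc]
            refine div_le_div_of_nonneg_right ?_ hW.le
            rw [Finset.mul_sum]
            refine Finset.sum_le_sum fun u _ => ?_
            by_cases hl : lw v r u
            · rw [if_pos hl, if_pos hl, mul_one]
              exact (hcon v r u h0 hv hr hl).le
            · rw [if_neg hl, if_neg hl, mul_zero]
          · rw [if_neg hv, zero_mul]
            exact mul_nonneg h0.le hnn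
  linarith

/-- Union bound. -/
theorem Pr_iU {J : Type} [Fintype J] (hQ : ∀ v, 0 ≤ Q v) (E : J → Set R) :
    Pr Q {v | ∃ j, v ∈ E j} ≤ ∑ j, Pr Q (E j) := by
  classical
  simp only [Pool.KAF.Pr_eq]
  rw [Finset.sum_comm]
  refine Finset.sum_le_sum fun v _ => ?_
  by_cases h : v ∈ {v | ∃ j, v ∈ E j}
  · rw [if_pos h]
    obtain ⟨j, hj⟩ := h
    have h1 : (if v ∈ E j then Q v else 0) ≤ ∑ j, (if v ∈ E j then Q v else 0) :=
      Finset.single_le_sum (f := fun j => if v ∈ E j then Q v else 0) (fun i _ => by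
        split_ifs
        · exact hQ v
        · exact le_rfl) (Finset.mem_univ j)
    rwa [if_pos hj] at h1
  · rw [if_neg h]
    refine Finset.sum_nonneg fun j _ => ?_
    split_ifs
    · exact hQ v
    · exact le_rfl

end pure

theorem Pr_law {Ω Ω' : Type} [Fintype Ω] [Fintype Ω'] {q : Ω' → ℝ} {p : Ω → ℝ} {pr : Ω' → Ω}
    (h : ∀ ω, law q pr ω = p ω) (E : Set Ω) : Pr q {w | pr w ∈ E} = Pr p E := by
  classical
  have h1 := Marg.ex (p := p) (q := q) (pr := pr) h (fun ω => if ω ∈ E then (1 : ℝ) else 0)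
  have h2 : ∀ {Ω : Type} [Fintype Ω] (p : Ω → ℝ) (E : Set Ω),
      Pr p E = Ex p (fun ω => if ω ∈ E then (1 : ℝ) else 0) := by
    intro Ω _ p E
    rw [Pool.KAF.Pr_eq]
    unfold Ex
    refine Finset.sum_congr rfl fun ω' _ => ?_
    show (if ω' ∈ E then p ω' else 0) = p ω' * (if ω' ∈ E then (1 : ℝ) else 0)
    by_cases h3 : ω' ∈ E
    · rw [if_pos h3, if_pos h3, mul_one]
    · rw [if_neg h3, if_neg h3, mul_zero]
  rw [h2, h2, ← h1]
  rfl

theorem zok_one {c : ℕ} (k : ℕ) : ZOK k (fun i j : Fin c => if i = j then (1 : ℝ) else 0) := by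
  have h : ∀ v, zc (fun i j : Fin c => if i = j then (1 : ℝ) else 0) v = v := by
    intro v
    funext i
    unfold zc
    simp
  have h1 : ∀ i j : Fin c, |(if i = j then (1 : ℝ) else 0)| ≤ 2 ^ k := by
    intro i j
    have : (1 : ℝ) ≤ 2 ^ k := one_le_pow₀ (by norm_num)
    split_ifs
    · rwa [abs_one]
    · rw [abs_zero]
      linarith
  exact ⟨h1, _, h1, fun v => by rw [h, h], fun v => by rw [h, h]⟩

section

variable {c : ℕ} (d : Dat c)

open Classical in
/-- The coordinates of a reference context. -/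
noncomputable def Mx (kmax : ℕ) (x : (d.Vt × d.Tau) × (Fin c → d.Tau)) : Fin c → Fin c → ℝ :=
  if h : ∃ M : Fin c → Fin c → ℝ, ZOK kmax M ∧ ∀ k, zc M (d.chi x.1.2 (x.2 k)) = Pi.single k 1
  then h.choose else fun i j => if i = j then 1 else 0

theorem Mx_ok (kmax : ℕ) (x : (d.Vt × d.Tau) × (Fin c → d.Tau)) : ZOK kmax (Mx d kmax x) := by
  unfold Mx
  split_ifs with h
  · exact h.choose_spec.1
  · exact zok_one kmax

variable {R : Type} [Fintype R] (w₀ : R → d.Om) (ρ : Fin c → R → d.Om)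

theorem Mx_crd {kmax : ℕ} {v : R} (h : ∃ M, Crd d w₀ ρ kmax v M) :
    Crd d w₀ ρ kmax v (Mx d kmax (xr d w₀ ρ v)) := by
  obtain ⟨M, hM⟩ := h
  have h' : ∃ M : Fin c → Fin c → ℝ, ZOK kmax M ∧
      ∀ k, zc M (d.chi (xr d w₀ ρ v).1.2 ((xr d w₀ ρ v).2 k)) = Pi.single k 1 := ⟨M, hM.1, hM.2⟩
  unfold Mx
  rw [dif_pos h']
  exact ⟨h'.choose_spec.1, h'.choose_spec.2⟩

end

end Core

end Pool.OCV
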