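import Pool.Agent.H98.OCV.Core3
import Pool.Agent.H6.OCV.NFR
import Pool.Agent.H20.OCM.Act
import Pool.Agent.H65.OCM.Tim

/-!
# OCV: CORE from RELA
-/

set_option autoImplicit false

namespace Pool.OCV

/-- **CORE** from RELA. -/
theorem core_of_rela (c : ℕ) (hR : RELAStmt c) : COREStmt c :=
  core_of' c (nfr_thm c) (Pool.OCV.AC20.actr_thm c) (Pool.Coup.tim_thm c) hR Pool.OCM.one_thm

end Pool.OCV
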