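import Pool.Agent.H98.OCV.Line0

/-!
# OCV: the argument on one line, at one row and one shift
-/

set_option autoImplicit false

namespace Pool.OCV

open Finset Real
open Pool.Agent.H49.Ent Pool.Agent.H32.Dense Pool.STK Pool.KAF
open Pool.OCM
open Pool.OC (sc sc_spec sc_ge sc_leW Pr_or isLaw_cnd floor_half)

namespace Line

variable {c : ℕ}

/-- A pair (mates `a`, partner `b`) for which the relation fails. -/
def Bad (d : Dat c) (M : Fin c → Fin c → ℝ) (kz g k₇ : ℕ) (c₁ : ℝ) (r : ℕ) (w : d.Om)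
    (φ : d.Om → ℝ) (a b : d.Om) : Prop :=
  Adm d M kz g (d.T w) (d.T a) (d.T b) ∧ 0 ≤ (r : ℤ) - mus d (d.T w) (d.T a) (d.T b) ∧
    d.act c₁ k₇ ((r : ℤ) - mus d (d.T w) (d.T a) (d.T b)).toNat (d.L w) ∧
    (2 : ℝ) ^ (-(g : ℤ)) < |φ a + φ b|

/-- The samples at the scale `i` which are too near or too large. -/
def Bs (d : Dat c) (M : Fin c → Fin c → ℝ) (kz R : ℕ) (w : d.Om) (i : ℕ) (a : d.Om) : Prop :=
  |d.th (d.T a) - d.th (d.T w)| < (2 : ℝ) ^ (-((i : ℤ) + R)) ∨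
    ∃ k, (2 : ℝ) ^ kz < |zc M (d.chi (d.T w) (d.T a)) k|

/-- Probability of a failing pair. -/
noncomputable def fl {Ω : Type} [Fintype Ω] (P₁ P₂ : Ω → ℝ) (E : Ω → Ω → Prop) : ℝ :=
  ∑ b, P₂ b * ms P₁ (fun a => E a b)

variable {d : Dat c} {w : d.Om} {M : Fin c → Fin c → ℝ}

theorem good_pair (hp : IsLaw d.P) {n R kz g k₇ r i j : ℕ} {c₁ : ℝ} {φ : d.Om → ℝ} {a b : d.Om}
    (ha : 0 < d.pk (n + i) w a) (hb : 0 < d.pk (n + j) w b) (ha1 : ¬ Bs d M kz R w (n + i) a)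
    (hb1 : ¬ Bs d M kz R w (n + j) b) (hi : i < n) (hj : j < n)
    (hij : i + (R + kz + g + 4) ≤ j)
    (hr : 5 * n + 2 * R + 1 ≤ r)
    (hrun : ∀ o ≤ 2 * R, d.act c₁ k₇ (r - 2 * n - (i + j) - 2 * R + o) (d.L w))
    (hφ : (2 : ℝ) ^ (-(g : ℤ)) < |φ a + φ b|) : Bad d M kz g k₇ c₁ r w φ a b := by
  obtain ⟨-, hta, -⟩ := pk_mem hp.nonneg ha
  obtain ⟨-, htb, -⟩ := pk_mem hp.nonneg hb
  have a1 := Ti_near hta
  have b1 := Ti_near htb
  unfold Bs at ha1 hb1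
  push Not at ha1 hb1
  obtain ⟨a2, a3⟩ := ha1
  obtain ⟨b2, b3⟩ := hb1
  set x := d.th (d.T a) - d.th (d.T w) with hx
  set y := d.th (d.T b) - d.th (d.T w) with hy
  have hx0 : x ≠ 0 := by
    rintro h
    rw [h, abs_zero] at a2
    have : (0 : ℝ) < (2 : ℝ) ^ (-(((n + i : ℕ) : ℤ) + R)) := by positivity
    linarith only [a2, this]
  have hy0 : y ≠ 0 := by
    rintro h
    rw [h, abs_zero] at b2
    have : (0 : ℝ) < (2 : ℝ) ^ (-(((n + j : ℕ) : ℤ) + R)) := by positivity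
    linarith only [b2, this]
  have s1 := sc_ge hx0 a1
  have s2 := sc_ge hy0 b1
  have s3 : sc x ≤ ((n + i + R : ℕ) : ℤ) := sc_leW (by push_cast at a2 ⊢; exact a2)
  have s4 : sc y ≤ ((n + j + R : ℕ) : ℤ) := sc_leW (by push_cast at b2 ⊢; exact b2)
  have hmu : mus d (d.T w) (d.T a) (d.T b) = sc x + sc y := rfl
  push_cast at s1 s2 s3 s4
  refine ⟨⟨?_, ?_, a3, b3⟩, ?_, ?_, hφ⟩
  · intro h
    exact hy0 (by rw [hy, h, sub_self])
  · have h1 : (2 : ℝ) ^ (-((kz : ℤ) + g + 3)) * (2 : ℝ) ^ (-(((n + i : ℕ) : ℤ) + R)) ≤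
        (2 : ℝ) ^ (-((kz : ℤ) + g + 3)) * |x| :=
      mul_le_mul_of_nonneg_left a2 (by positivity)
    refine le_trans ?_ h1
    rw [← zpow_add₀ (by norm_num : (2 : ℝ) ≠ 0)]
    refine le_trans b1.le (zpow_le_zpow_right₀ (by norm_num) ?_)
    push_cast
    omega
  · rw [hmu]
    omega
  · rw [hmu]
    have e : ((r : ℤ) - (sc x + sc y)).toNat =
        r - 2 * n - (i + j) - 2 * R + (2 * n + (i + j) + 2 * R - (sc x + sc y).toNat) := by
      omega
    rw [e]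
    refine hrun _ ?_
    omega

theorem ms_eq_one {Ω : Type} [Fintype Ω] {p : Ω → ℝ} (h0 : ∀ t, 0 ≤ p t) (s : Ω → Prop) :
    0 ≤ ms p s := ms_nonneg h0 s

open Classical in
theorem ms_or {Ω : Type} [Fintype Ω] {p : Ω → ℝ} (h0 : ∀ t, 0 ≤ p t) {s s₁ s₂ : Ω → Prop}
    (h : ∀ t, 0 < p t → s t → s₁ t ∨ s₂ t) : ms p s ≤ ms p s₁ + ms p s₂ := by
  unfold ms
  rw [← Finset.sum_add_distrib]
  refine Finset.sum_le_sum fun t _ => ?_
  rcases (h0 t).eq_or_lt with h1 | h1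
  · rw [← h1]
    simp
  by_cases h2 : s t
  · rw [if_pos h2]
    rcases h t h1 h2 with h3 | h3
    · rw [if_pos h3]
      split_ifs <;> linarith
    · rw [if_pos h3]
      split_ifs <;> linarith
  · rw [if_neg h2]
    split_ifs <;> linarith

/-- One pair of scales. -/
theorem beta_le (hp : IsLaw d.P) (hw : 0 < d.P w) {n R kz g k₇ r i j : ℕ} {c₁ : ℝ}
    {φ : d.Om → ℝ} (hi : i < n) (hj : j < n) (hij : i + (R + kz + g + 4) ≤ j)
    (hr : 5 * n + 2 * R + 1 ≤ r)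
    (hrun : ∀ o ≤ 2 * R, d.act c₁ k₇ (r - 2 * n - (i + j) - 2 * R + o) (d.L w)) :
    beta (fun i => d.pk (n + i) w) φ ((2 : ℝ) ^ (-(g : ℤ))) i j ≤
      fl (d.pk (n + i) w) (d.pk (n + j) w) (Bad d M kz g k₇ c₁ r w φ) +
        ms (d.pk (n + i) w) (Bs d M kz R w (n + i)) +
        ms (d.pk (n + j) w) (Bs d M kz R w (n + j)) := by
  classical
  have li := pk_law (w := w) hp hw (n + i)
  have lj := pk_law (w := w) hp hw (n + j)
  unfold beta fl
  have key : ∀ b, d.pk (n + j) w b * ms (d.pk (n + i) w)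
      (fun a => (2 : ℝ) ^ (-(g : ℤ)) < ‖φ a + φ b‖) ≤
      d.pk (n + j) w b * ms (d.pk (n + i) w) (fun a => Bad d M kz g k₇ c₁ r w φ a b) +
      d.pk (n + j) w b * ms (d.pk (n + i) w) (Bs d M kz R w (n + i)) +
      (if Bs d M kz R w (n + j) b then d.pk (n + j) w b else 0) := by
    intro b
    rcases (lj.nonneg b).eq_or_lt with h0 | h0
    · rw [← h0]
      simp
    by_cases hb : Bs d M kz R w (n + j) b
    · rw [if_pos hb]
      have h1 : ms (d.pk (n + i) w) (fun a => (2 : ℝ) ^ (-(g : ℤ)) < ‖φ a + φ b‖) ≤ 1 :=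
        ms_le_one li.nonneg li.sum_one _
      have h2 := ms_nonneg li.nonneg (fun a => Bad d M kz g k₇ c₁ r w φ a b)
      have h3 := ms_nonneg li.nonneg (Bs d M kz R w (n + i))
      have h4 : d.pk (n + j) w b * ms (d.pk (n + i) w)
          (fun a => (2 : ℝ) ^ (-(g : ℤ)) < ‖φ a + φ b‖) ≤ d.pk (n + j) w b * 1 :=
        mul_le_mul_of_nonneg_left h1 h0.le
      have h5 := mul_nonneg h0.le h2
      have h6 := mul_nonneg h0.le h3
      linarith only [h4, h5, h6]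
    · rw [if_neg hb, add_zero, ← mul_add]
      refine mul_le_mul_of_nonneg_left ?_ h0.le
      refine ms_or li.nonneg fun a ha hφ => ?_
      by_cases ha1 : Bs d M kz R w (n + i) a
      · exact Or.inr ha1
      · exact Or.inl (good_pair hp ha h0 ha1 hb hi hj hij hr hrun hφ)
  refine le_trans (Finset.sum_le_sum fun b _ => key b) ?_
  rw [Finset.sum_add_distrib, Finset.sum_add_distrib, ← Finset.sum_mul, lj.sum_one, one_mul]
  exact le_rfl

theorem beta_comm {T : Type} [Fintype T] {P : ℕ → T → ℝ} {φ : T → ℝ} {ε : ℝ} (i j : ℕ) :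
    beta P φ ε i j = beta P φ ε j i := by
  classical
  unfold beta ms
  simp only [Finset.mul_sum]
  rw [Finset.sum_comm]
  refine Finset.sum_congr rfl fun a _ => Finset.sum_congr rfl fun b _ => ?_
  by_cases h : ε < ‖φ a + φ b‖
  · have h' : ε < ‖φ b + φ a‖ := by rwa [add_comm]
    rw [if_pos h, if_pos h']
    ring
  · have h' : ¬ ε < ‖φ b + φ a‖ := by rwa [add_comm]
    rw [if_neg h, if_neg h']
    ring

theorem beta_le_one {T : Type} [Fintype T] {P : ℕ → T → ℝ} {φ : T → ℝ} {ε : ℝ} {i j : ℕ}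
    (li : IsLaw (P i)) (lj : IsLaw (P j)) : beta P φ ε i j ≤ 1 := by
  unfold beta
  calc ∑ b, P j b * ms (P i) (fun a => ε < ‖φ a + φ b‖) ≤ ∑ b, P j b * 1 :=
        Finset.sum_le_sum fun b _ => mul_le_mul_of_nonneg_left
          (ms_le_one li.nonneg li.sum_one _) (lj.nonneg b)
    _ = 1 := by rw [← Finset.sum_mul, lj.sum_one, one_mul]

theorem fl_nonneg {Ω : Type} [Fintype Ω] {P₁ P₂ : Ω → ℝ} (h1 : ∀ a, 0 ≤ P₁ a)
    (h2 : ∀ a, 0 ≤ P₂ a) (E : Ω → Ω → Prop) : 0 ≤ fl P₁ P₂ E :=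
  Finset.sum_nonneg fun b _ => mul_nonneg (h2 b) (ms_nonneg h1 _)

theorem near_card (n i G : ℕ) :
    ((range n).filter (fun j => ¬ i + G ≤ j ∧ ¬ j + G ≤ i)).card ≤ 2 * G := by
  refine le_trans (Finset.card_le_card (t := Ico (i + 1 - G) (i + G)) ?_) ?_
  · intro j hj
    rw [Finset.mem_filter] at hj
    rw [Finset.mem_Ico]
    omega
  · rw [Nat.card_Ico]
    omega

open Classical in
/-- The sum over the pairs of scales. -/
theorem beta_sum (hp : IsLaw d.P) (hw : 0 < d.P w) {n R kz g k₇ r : ℕ} {c₁ δ₀ η : ℝ}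
    {φ : d.Om → ℝ} (hr : 5 * n + 2 * R + 1 ≤ r) (F : Finset ℕ)
    (hF : ∀ s ∈ F, ∀ o ≤ 2 * R, d.act c₁ k₇ (r - 2 * n - s - 2 * R + o) (d.L w))
    (hB : ∑ i ∈ range n, ms (d.pk (n + i) w) (Bs d M kz R w (n + i)) ≤ η * n)
    (hrel : ∑ i ∈ range n, ∑ j ∈ range n,
      fl (d.pk (n + i) w) (d.pk (n + j) w) (Bad d M kz g k₇ c₁ r w φ) ≤ δ₀ * n ^ 2) :
    ∑ i ∈ range n, ∑ j ∈ range n, (if i + j ∈ F then
      beta (fun i => d.pk (n + i) w) φ ((2 : ℝ) ^ (-(g : ℤ))) i j else 0) ≤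
      2 * δ₀ * n ^ 2 + 2 * η * n ^ 2 + 2 * (R + kz + g + 4 : ℕ) * n := by
  set G := R + kz + g + 4 with hG
  have law : ∀ i, IsLaw (d.pk (n + i) w) := fun i => pk_law (w := w) hp hw (n + i)
  set B : ℕ → ℝ := fun i => ms (d.pk (n + i) w) (Bs d M kz R w (n + i)) with hBdef
  set f : ℕ → ℕ → ℝ := fun i j => fl (d.pk (n + i) w) (d.pk (n + j) w)
    (Bad d M kz g k₇ c₁ r w φ) with hf
  have hB0 : ∀ i, 0 ≤ B i := fun i => ms_nonneg (law i).nonneg _
  have hf0 : ∀ i j, 0 ≤ f i j := fun i j => fl_nonneg (law i).nonneg (law j).nonneg _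
  have key : ∀ i ∈ range n, ∀ j ∈ range n, (if i + j ∈ F then
      beta (fun i => d.pk (n + i) w) φ ((2 : ℝ) ^ (-(g : ℤ))) i j else 0) ≤
      f i j + f j i + B i + B j + (if ¬ i + G ≤ j ∧ ¬ j + G ≤ i then 1 else 0) := by
    intro i hi j hj
    rw [Finset.mem_range] at hi hj
    have a1 := hB0 i
    have a2 := hB0 j
    have a3 := hf0 i j
    have a4 := hf0 j i
    by_cases hs : i + j ∈ F
    · rw [if_pos hs]
      by_cases h1 : i + G ≤ j
      · rw [if_neg (by omega)]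
        have := beta_le (M := M) (φ := φ) hp hw hi hj h1 hr (hF _ hs)
        linarith only [a4, this]
      · by_cases h2 : j + G ≤ i
        · rw [if_neg (by omega), beta_comm]
          have := beta_le (M := M) (φ := φ) hp hw hj hi h2 hr (by
            rw [Nat.add_comm j i]; exact hF _ hs)
          linarith only [a3, this]
        · rw [if_pos ⟨h1, h2⟩]
          have := beta_le_one (φ := φ) (ε := (2 : ℝ) ^ (-(g : ℤ))) (P := fun i => d.pk (n + i) w)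
            (law i) (law j)
          linarith only [a1, a2, a3, a4, this]
    · rw [if_neg hs]
      split_ifs <;> linarith only [a1, a2, a3, a4]
  refine le_trans (Finset.sum_le_sum fun i hi => Finset.sum_le_sum fun j hj => key i hi j hj) ?_
  simp only [Finset.sum_add_distrib, Finset.sum_const, Finset.card_range, nsmul_eq_mul]
  have e1 : ∑ i ∈ range n, ∑ j ∈ range n, f j i = ∑ i ∈ range n, ∑ j ∈ range n, f i j :=
    Finset.sum_comm
  have e2 : ∑ i ∈ range n, (n : ℝ) * B i = n * ∑ i ∈ range n, B i := by rw [Finset.mul_sum]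
  rw [e1, e2]
  have e3 : ∑ i ∈ range n, ∑ j ∈ range n, (if ¬ i + G ≤ j ∧ ¬ j + G ≤ i then (1 : ℝ) else 0) ≤
      2 * (G : ℝ) * n := by
    calc ∑ i ∈ range n, ∑ j ∈ range n, (if ¬ i + G ≤ j ∧ ¬ j + G ≤ i then (1 : ℝ) else 0)
        ≤ ∑ i ∈ range n, (2 * G : ℝ) := by
          refine Finset.sum_le_sum fun i _ => ?_
          rw [← Finset.sum_filter, Finset.sum_const, nsmul_eq_mul, mul_one]
          exact_mod_cast near_card n i G
      _ = 2 * (G : ℝ) * n := by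
          rw [Finset.sum_const, Finset.card_range, nsmul_eq_mul]
          ring
  have hn : (0 : ℝ) ≤ n := Nat.cast_nonneg _
  have e4 : (n : ℝ) * ∑ i ∈ range n, B i ≤ n * (η * n) := mul_le_mul_of_nonneg_left hB hn
  have e5 : ∑ i ∈ range n, ∑ j ∈ range n, f i j ≤ δ₀ * n ^ 2 := hrel
  nlinarith only [hrel, e3, e4]

open Classical in
/-- The set of scales with a run for a reference of the scale `σ`. -/
theorem ref_card (Run : ℕ → Prop) {h X n q R r σ G : ℕ} {c₂ : ℝ} (hh : 0 < h) (hc : 0 < c₂)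
    (hrun : ∀ i, i + 2 * h ≤ X →
      c₂ * (2 * h : ℕ) ≤ (Set.ncard {j | i ≤ j ∧ j < i + 2 * h ∧ Run j} : ℝ))
    (hn : 2 * h ≤ n) (hr : 5 * n + 2 * R + 1 ≤ r) (hrX : r ≤ X) (hσ : σ ≤ 3 * n)
    (hG : 2 * (G : ℝ) ≤ c₂ / 4 * n) :
    c₂ / 4 * n ≤ (((range n).filter (fun j => (σ + G ≤ n + j ∨ n + j + G ≤ σ) ∧
      Run (r - σ - n - j - R))).card : ℝ) := by
  have h1 := run_count Run h X c₂ hh hc.le hrun (r - σ - 2 * n - R + 1) n hn (by omega)
  have h2 : ((Ico (r - σ - 2 * n - R + 1) (r - σ - 2 * n - R + 1 + n)).filter Run).card ≤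
      ((range n).filter (fun j => Run (r - σ - n - j - R))).card := by
    refine Finset.card_le_card_of_injOn (fun x => r - σ - n - R - x) ?_ ?_
    · intro x hx
      rw [Finset.mem_coe, Finset.mem_filter, Finset.mem_Ico] at hx
      rw [Finset.mem_coe, Finset.mem_filter, Finset.mem_range]
      have : r - σ - n - (r - σ - n - R - x) - R = x := by omega
      refine ⟨by beta_reduce; omega, ?_⟩
      beta_reduce
      rw [this]
      exact hx.2
    · intro x hx y hy hxy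
      rw [Finset.mem_coe, Finset.mem_filter, Finset.mem_Ico] at hx hy
      simp only at hxy
      omega
  have h3 : ((range n).filter (fun j => Run (r - σ - n - j - R))).card ≤
      ((range n).filter (fun j => (σ + G ≤ n + j ∨ n + j + G ≤ σ) ∧
        Run (r - σ - n - j - R))).card + 2 * G := by
    refine le_trans (Finset.card_le_card (t := ((range n).filter (fun j =>
      (σ + G ≤ n + j ∨ n + j + G ≤ σ) ∧ Run (r - σ - n - j - R))) ∪
      ((range n).filter (fun j => ¬ (σ + G ≤ n + j ∨ n + j + G ≤ σ)))) ?_) ?_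
    · intro j hj
      rw [Finset.mem_filter] at hj
      rw [Finset.mem_union, Finset.mem_filter, Finset.mem_filter]
      by_cases h4 : σ + G ≤ n + j ∨ n + j + G ≤ σ
      · exact Or.inl ⟨hj.1, h4, hj.2⟩
      · exact Or.inr ⟨hj.1, h4⟩
    · refine le_trans (Finset.card_union_le _ _) (Nat.add_le_add_left ?_ _)
      refine le_trans (Finset.card_le_card (t := Ico (σ + 1 - G - n) (σ + G - n)) ?_) ?_
      · intro j hj
        rw [Finset.mem_filter] at hj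
        rw [Finset.mem_Ico]
        omega
      · rw [Nat.card_Ico]
        omega
  have h2' : (((Ico (r - σ - 2 * n - R + 1) (r - σ - 2 * n - R + 1 + n)).filter Run).card : ℝ) ≤
      (((range n).filter (fun j => Run (r - σ - n - j - R))).card : ℝ) := by exact_mod_cast h2
  have h3' : (((range n).filter (fun j => Run (r - σ - n - j - R))).card : ℝ) ≤
      (((range n).filter (fun j => (σ + G ≤ n + j ∨ n + j + G ≤ σ) ∧
        Run (r - σ - n - j - R))).card : ℝ) + 2 * G := by exact_mod_cast h3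
  linarith only [hG, h1, h2', h3']

/-- A reference and a fine sample, the reference is the coarse one. -/
theorem good_ref1 (hp : IsLaw d.P) {n R kz g k₇ r j σ : ℕ} {c₁ : ℝ} {φ : d.Om → ℝ}
    {ρ a : d.Om} (ha : 0 < d.pk (n + j) w a) (ha1 : ¬ Bs d M kz R w (n + j) a) (hj : j < n)
    (hρ0 : d.th (d.T ρ) - d.th (d.T w) ≠ 0)
    (hσ : sc (d.th (d.T ρ) - d.th (d.T w)) = σ) (hσ2 : σ ≤ 3 * n)
    (hρ2 : ∀ k, |zc M (d.chi (d.T w) (d.T ρ)) k| ≤ 2 ^ kz)
    (hσj : σ + (R + kz + g + 4) ≤ n + j) (hr : 5 * n + 2 * R + 1 ≤ r)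
    (hrun : ∀ o ≤ 2 * R, d.act c₁ k₇ (r - σ - n - j - R + o) (d.L w))
    (hφ : (2 : ℝ) ^ (-(g : ℤ)) < |φ ρ + φ a|) : Bad d M kz g k₇ c₁ r w φ ρ a := by
  obtain ⟨-, hta, -⟩ := pk_mem hp.nonneg ha
  have a1 := Ti_near hta
  unfold Bs at ha1
  push Not at ha1
  obtain ⟨a2, a3⟩ := ha1
  set x := d.th (d.T a) - d.th (d.T w) with hx
  set y := d.th (d.T ρ) - d.th (d.T w) with hy
  have hx0 : x ≠ 0 := by
    rintro h
    rw [h, abs_zero] at a2
    have : (0 : ℝ) < (2 : ℝ) ^ (-(((n + j : ℕ) : ℤ) + R)) := by positivity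
    linarith only [a2, this]
  have s1 := sc_ge hx0 a1
  have s3 : sc x ≤ ((n + j + R : ℕ) : ℤ) := sc_leW (by push_cast at a2 ⊢; exact a2)
  have hmu : mus d (d.T w) (d.T ρ) (d.T a) = sc y + sc x := rfl
  have y1 := (sc_spec hρ0).1
  rw [hσ] at y1 hmu
  push_cast at s1 s3
  refine ⟨⟨?_, ?_, hρ2, a3⟩, ?_, ?_, hφ⟩
  · intro h
    exact hx0 (by rw [hx, h, sub_self])
  · have h1 : (2 : ℝ) ^ (-((kz : ℤ) + g + 3)) * (2 : ℝ) ^ (-(σ : ℤ)) ≤
        (2 : ℝ) ^ (-((kz : ℤ) + g + 3)) * |y| :=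
      mul_le_mul_of_nonneg_left y1 (by positivity)
    refine le_trans ?_ h1
    rw [← zpow_add₀ (by norm_num : (2 : ℝ) ≠ 0)]
    refine le_trans a1.le (zpow_le_zpow_right₀ (by norm_num) ?_)
    push_cast
    omega
  · rw [hmu]
    omega
  · rw [hmu]
    have e : ((r : ℤ) - (σ + sc x)).toNat =
        r - σ - n - j - R + (n + j + R - (sc x).toNat) := by
      omega
    rw [e]
    refine hrun _ ?_
    omega

/-- A reference and a fine sample, the fine sample is the coarse one. -/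
theorem good_ref2 (hp : IsLaw d.P) {n R kz g k₇ r j σ : ℕ} {c₁ : ℝ} {φ : d.Om → ℝ}
    {ρ a : d.Om} (ha : 0 < d.pk (n + j) w a) (ha1 : ¬ Bs d M kz R w (n + j) a) (hj : j < n)
    (hρ0 : d.th (d.T ρ) - d.th (d.T w) ≠ 0)
    (hσ : sc (d.th (d.T ρ) - d.th (d.T w)) = σ) (hσ2 : σ ≤ 3 * n)
    (hρ2 : ∀ k, |zc M (d.chi (d.T w) (d.T ρ)) k| ≤ 2 ^ kz)
    (hσj : n + j + (R + kz + g + 4) ≤ σ) (hr : 5 * n + 2 * R + 1 ≤ r)
    (hrun : ∀ o ≤ 2 * R, d.act c₁ k₇ (r - σ - n - j - R + o) (d.L w))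
    (hφ : (2 : ℝ) ^ (-(g : ℤ)) < |φ a + φ ρ|) : Bad d M kz g k₇ c₁ r w φ a ρ := by
  obtain ⟨-, hta, -⟩ := pk_mem hp.nonneg ha
  have a1 := Ti_near hta
  unfold Bs at ha1
  push Not at ha1
  obtain ⟨a2, a3⟩ := ha1
  set x := d.th (d.T a) - d.th (d.T w) with hx
  set y := d.th (d.T ρ) - d.th (d.T w) with hy
  have hx0 : x ≠ 0 := by
    rintro h
    rw [h, abs_zero] at a2
    have : (0 : ℝ) < (2 : ℝ) ^ (-(((n + j : ℕ) : ℤ) + R)) := by positivity
    linarith only [a2, this]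
  have s1 := sc_ge hx0 a1
  have s3 : sc x ≤ ((n + j + R : ℕ) : ℤ) := sc_leW (by push_cast at a2 ⊢; exact a2)
  have hmu : mus d (d.T w) (d.T a) (d.T ρ) = sc x + sc y := rfl
  have y1 := (sc_spec hρ0).2
  rw [hσ] at y1 hmu
  push_cast at s1 s3
  refine ⟨⟨?_, ?_, a3, hρ2⟩, ?_, ?_, hφ⟩
  · intro h
    exact hρ0 (by rw [hy, h, sub_self])
  · have h1 : (2 : ℝ) ^ (-((kz : ℤ) + g + 3)) * (2 : ℝ) ^ (-(((n + j : ℕ) : ℤ) + R)) ≤
        (2 : ℝ) ^ (-((kz : ℤ) + g + 3)) * |x| :=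
      mul_le_mul_of_nonneg_left a2 (by positivity)
    refine le_trans ?_ h1
    rw [← zpow_add₀ (by norm_num : (2 : ℝ) ≠ 0)]
    refine le_trans y1.le (zpow_le_zpow_right₀ (by norm_num) ?_)
    push_cast
    omega
  · rw [hmu]
    omega
  · rw [hmu]
    have e : ((r : ℤ) - (sc x + σ)).toNat =
        r - σ - n - j - R + (n + j + R - (sc x).toNat) := by
      omega
    rw [e]
    refine hrun _ ?_
    omega

open Classical in
/-- **One line, one row, one shift.** The covector nearly annihilates the reference. -/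
theorem line (hp : IsLaw d.P) (hth : ∀ t, 0 ≤ d.th t ∧ d.th t < 1) (hw : 0 < d.P w)
    {q n0 n R kz g k₇ r h : ℕ} {c₁ c₂ C₁ δ' δ δ₀ η : ℝ} {φ : d.Om → ℝ} {ρ : d.Om}
    (hone : ∀ n : ℕ, n0 ≤ n → ∀ (P : ℕ → d.Om → ℝ) (φ : d.Om → ℝ) (ε : ℝ) (F : Finset ℕ),
      0 ≤ ε → (∀ i < n, ∀ t, 0 ≤ P i t) → (∀ i < n, ∑ t, P i t = 1) →
      (∀ x, x + n / q ≤ 2 * n → c₂ / 2 * (n / q : ℕ) ≤ ((nb F (n / q) x).card : ℝ)) →
      (∑ i ∈ range n, ∑ j ∈ range n, (if i + j ∈ F then beta P φ ε i j else 0) ≤ δ * n ^ 2) →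
      (∀ A : Finset ℕ, (∀ i ∈ A, i < n ∧ ¬ ∀ t, P (i + 1) t ≤ 3 * P i t) →
        (A.card : ℝ) ≤ δ * n) →
      ∑ i ∈ range n, ms (P i) (fun a => C₁ * ε < ‖φ a‖) ≤ δ' * n)
    (hn0 : n0 ≤ n) (hn : 0 < n) (hc2 : 0 < c₂) (hh : 0 < h) (h2 : 2 * h ≤ n / q)
    (hrun : ∀ i, i + 2 * h ≤ d.X → c₂ * (2 * h : ℕ) ≤ (Set.ncard {j | i ≤ j ∧
      j < i + 2 * h ∧ ∀ o ≤ 2 * R, d.act c₁ k₇ (j + o) (d.L w)} : ℝ))
    (hr : 5 * n + 2 * R + 1 ≤ r) (hrX : r ≤ d.X)
    (hT : (Set.ncard {i : ℕ | n ≤ i ∧ i < 2 * n ∧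
      Pr (d.pk i w) {v | d.Ti (i + 1) v = d.Ti (i + 1) w} < 1 / 3} : ℝ) ≤ δ * n)
    (hB : ∑ i ∈ range n, ms (d.pk (n + i) w) (Bs d M kz R w (n + i)) ≤ η * n)
    (hrel : ∑ i ∈ range n, ∑ j ∈ range n,
      fl (d.pk (n + i) w) (d.pk (n + j) w) (Bad d M kz g k₇ c₁ r w φ) ≤ δ₀ * n ^ 2)
    (hρ1 : (2 : ℝ) ^ (-(3 * (n : ℤ))) ≤ |d.th (d.T ρ) - d.th (d.T w)|)
    (hρ2 : ∀ k, |zc M (d.chi (d.T w) (d.T ρ)) k| ≤ 2 ^ kz)
    (href1 : ∑ j ∈ range n, ms (d.pk (n + j) w) (fun a => Bad d M kz g k₇ c₁ r w φ ρ a) ≤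
      δ₀ * n)
    (href2 : ∑ j ∈ range n, ms (d.pk (n + j) w) (fun a => Bad d M kz g k₇ c₁ r w φ a ρ) ≤
      δ₀ * n)
    (k1 : 2 * δ₀ + 2 * η ≤ δ / 2) (k2 : 2 * (R + kz + g + 4 : ℕ) ≤ δ / 2 * n)
    (k3 : 2 * δ₀ + η ≤ c₂ / 16) (k4 : δ' ≤ c₂ / 16)
    (k5 : 2 * ((R + kz + g + 4 : ℕ) : ℝ) ≤ c₂ / 4 * n) :
    |φ ρ| ≤ (C₁ + 1) * (2 : ℝ) ^ (-(g : ℤ)) := by
  have law : ∀ i, IsLaw (d.pk (n + i) w) := fun i => pk_law (w := w) hp hw (n + i)
  obtain ⟨Run, hRun⟩ : ∃ Run : ℕ → Prop,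
    Run = fun j => ∀ o ≤ 2 * R, d.act c₁ k₇ (j + o) (d.L w) := ⟨_, rfl⟩
  have hRun' : ∀ j, Run j ↔ ∀ o ≤ 2 * R, d.act c₁ k₇ (j + o) (d.L w) := by
    intro j
    rw [hRun]
  replace hrun : ∀ i, i + 2 * h ≤ d.X → c₂ * (2 * h : ℕ) ≤ (Set.ncard {j | i ≤ j ∧
      j < i + 2 * h ∧ Run j} : ℝ) := by
    intro i hi
    have := hrun i hi
    simp only [hRun']
    exact this
  clear hRun
  have hnR : (0 : ℝ) < n := by exact_mod_cast hn
  -- the set of sums
  set F : Finset ℕ := (range (2 * n)).filter (fun s => Run (r - 2 * n - s - 2 * R)) with hF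
  have hFd : ∀ x, x + n / q ≤ 2 * n → c₂ / 2 * (n / q : ℕ) ≤ ((nb F (n / q) x).card : ℝ) := by
    intro x hx
    set m := n / q with hm
    have h3 := run_count Run h d.X c₂ hh hc2.le hrun (r - 2 * n - x - 2 * R - m + 1) m h2
      (by omega)
    refine le_trans h3 ?_
    have : ((Ico (r - 2 * n - x - 2 * R - m + 1) (r - 2 * n - x - 2 * R - m + 1 + m)).filter
        Run).card ≤ (nb F m x).card := by
      refine Finset.card_le_card_of_injOn (fun j => r - 2 * n - x - 2 * R - j) ?_ ?_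
      · intro j hj
        rw [Finset.mem_coe, Finset.mem_filter, Finset.mem_Ico] at hj
        rw [Finset.mem_coe, mem_nb, hF, Finset.mem_filter, Finset.mem_range]
        have : r - 2 * n - (x + (r - 2 * n - x - 2 * R - j)) - 2 * R = j := by omega
        refine ⟨by beta_reduce; omega, by beta_reduce; omega, ?_⟩
        beta_reduce
        rw [this]
        exact hj.2
      · intro j hj j' hj' hjj
        rw [Finset.mem_coe, Finset.mem_filter, Finset.mem_Ico] at hj hj'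
        simp only at hjj
        omega
    exact_mod_cast this
  have hsum := beta_sum (φ := φ) hp hw hr F (by
    intro s hs
    rw [hF, Finset.mem_filter, hRun'] at hs
    exact hs.2) hB hrel
  have hsum' : ∑ i ∈ range n, ∑ j ∈ range n, (if i + j ∈ F then
      beta (fun i => d.pk (n + i) w) φ ((2 : ℝ) ^ (-(g : ℤ))) i j else 0) ≤ δ * n ^ 2 := by
    refine le_trans hsum ?_
    have e1 : 2 * ((R + kz + g + 4 : ℕ) : ℝ) * n ≤ δ / 2 * n * n :=
      mul_le_mul_of_nonneg_right k2 hnR.le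
    have e2 : (2 * δ₀ + 2 * η) * (n : ℝ) ^ 2 ≤ δ / 2 * n ^ 2 :=
      mul_le_mul_of_nonneg_right k1 (by positivity)
    nlinarith only [e1, e2]
  have hcoup : ∀ A : Finset ℕ, (∀ i ∈ A, i < n ∧
      ¬ ∀ t, d.pk (n + (i + 1)) w t ≤ 3 * d.pk (n + i) w t) → (A.card : ℝ) ≤ δ * n := by
    intro A hA
    refine le_trans ?_ hT
    have h3 : ((A.image (fun i => n + i) : Finset ℕ) : Set ℕ) ⊆ {i : ℕ | n ≤ i ∧ i < 2 * n ∧
        Pr (d.pk i w) {v | d.Ti (i + 1) v = d.Ti (i + 1) w} < 1 / 3} := by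
      intro x hx
      rw [Finset.mem_coe, Finset.mem_image] at hx
      obtain ⟨i, hi, rfl⟩ := hx
      obtain ⟨h4, h5⟩ := hA i hi
      refine ⟨by omega, by omega, ?_⟩
      by_contra h6
      exact h5 fun t => pk_succ hp hw h6 t
    have h4 : (A.image (fun i => n + i)).card = A.card :=
      Finset.card_image_of_injective _ (fun a b h => by simpa using h)
    have h5 : Set.Finite {i : ℕ | n ≤ i ∧ i < 2 * n ∧
        Pr (d.pk i w) {v | d.Ti (i + 1) v = d.Ti (i + 1) w} < 1 / 3} :=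
      Set.Finite.subset (Finset.finite_toSet (Ico n (2 * n))) (by
        intro i hi
        simp only [Finset.coe_Ico, Set.mem_Ico]
        exact ⟨hi.1, hi.2.1⟩)
    have h6 := Set.ncard_le_ncard h3 h5
    rw [Set.ncard_coe_finset, h4] at h6
    exact_mod_cast h6
  have hone' := hone n hn0 (fun i => d.pk (n + i) w) φ ((2 : ℝ) ^ (-(g : ℤ))) F (by positivity)
    (fun i _ => (law i).nonneg) (fun i _ => (law i).sum_one) hFd hsum' hcoup
  -- the reference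
  have hρ0 : d.th (d.T ρ) - d.th (d.T w) ≠ 0 := by
    intro h
    rw [h, abs_zero] at hρ1
    have : (0 : ℝ) < (2 : ℝ) ^ (-(3 * (n : ℤ))) := by positivity
    linarith only [hρ1, this]
  have hlt : |d.th (d.T ρ) - d.th (d.T w)| < (2 : ℝ) ^ (-((0 : ℕ) : ℤ)) := by
    have a := hth (d.T ρ)
    have b := hth (d.T w)
    rw [abs_lt]
    norm_num
    constructor <;> linarith only [a, b]
  have s1 := sc_ge hρ0 hlt
  have s2 : sc (d.th (d.T ρ) - d.th (d.T w)) ≤ ((3 * n : ℕ) : ℤ) := sc_leW (by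
    push_cast
    exact hρ1)
  obtain ⟨σ, hσ⟩ : ∃ σ : ℕ, sc (d.th (d.T ρ) - d.th (d.T w)) = σ :=
    ⟨(sc (d.th (d.T ρ) - d.th (d.T w))).toNat, by omega⟩
  have hσ3 : σ ≤ 3 * n := by
    rw [hσ] at s2
    exact_mod_cast s2
  have hq : 2 * h ≤ n := le_trans h2 (Nat.div_le_self _ _)
  set J : Finset ℕ := (range n).filter (fun j => (σ + (R + kz + g + 4) ≤ n + j ∨
    n + j + (R + kz + g + 4) ≤ σ) ∧ Run (r - σ - n - j - R)) with hJ
  have hJc : c₂ / 4 * n ≤ (J.card : ℝ) :=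
    ref_card (q := q) Run hh hc2 hrun hq hr hrX hσ3 k5
  have hJs : ∑ j ∈ J, ms (d.pk (n + j) w) (fun a => (2 : ℝ) ^ (-(g : ℤ)) < ‖φ ρ + φ a‖) ≤
      c₂ / 4 / 4 * n := by
    have h3 : ∀ j ∈ J, ms (d.pk (n + j) w) (fun a => (2 : ℝ) ^ (-(g : ℤ)) < ‖φ ρ + φ a‖) ≤
        ms (d.pk (n + j) w) (fun a => Bad d M kz g k₇ c₁ r w φ ρ a) +
        ms (d.pk (n + j) w) (fun a => Bad d M kz g k₇ c₁ r w φ a ρ) +
        ms (d.pk (n + j) w) (Bs d M kz R w (n + j)) := by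
      intro j hj
      rw [hJ, Finset.mem_filter, Finset.mem_range, hRun'] at hj
      obtain ⟨hj1, hj2, hj3⟩ := hj
      have h4 : ms (d.pk (n + j) w) (fun a => Bad d M kz g k₇ c₁ r w φ ρ a ∨
          Bad d M kz g k₇ c₁ r w φ a ρ) ≤
          ms (d.pk (n + j) w) (fun a => Bad d M kz g k₇ c₁ r w φ ρ a) +
          ms (d.pk (n + j) w) (fun a => Bad d M kz g k₇ c₁ r w φ a ρ) :=
        ms_or (law j).nonneg fun a _ h => h
      refine le_trans (ms_or (s₁ := fun a => Bad d M kz g k₇ c₁ r w φ ρ a ∨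
        Bad d M kz g k₇ c₁ r w φ a ρ) (s₂ := Bs d M kz R w (n + j)) (law j).nonneg ?_)
        (add_le_add_left h4 _)
      intro a ha hφ
      by_cases ha1 : Bs d M kz R w (n + j) a
      · exact Or.inr ha1
      left
      rcases hj2 with h5 | h5
      · exact Or.inl (good_ref1 hp ha ha1 hj1 hρ0 hσ hσ3 hρ2 h5 hr hj3 hφ)
      · refine Or.inr (good_ref2 hp ha ha1 hj1 hρ0 hσ hσ3 hρ2 h5 hr hj3 ?_)
        rw [add_comm]
        exact hφ
    refine le_trans (Finset.sum_le_sum h3) ?_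
    have h4 : ∑ j ∈ J, (ms (d.pk (n + j) w) (fun a => Bad d M kz g k₇ c₁ r w φ ρ a) +
        ms (d.pk (n + j) w) (fun a => Bad d M kz g k₇ c₁ r w φ a ρ) +
        ms (d.pk (n + j) w) (Bs d M kz R w (n + j))) ≤
        ∑ j ∈ range n, (ms (d.pk (n + j) w) (fun a => Bad d M kz g k₇ c₁ r w φ ρ a) +
        ms (d.pk (n + j) w) (fun a => Bad d M kz g k₇ c₁ r w φ a ρ) +
        ms (d.pk (n + j) w) (Bs d M kz R w (n + j))) := by
      refine Finset.sum_le_sum_of_subset_of_nonneg (Finset.filter_subset _ _) fun j _ _ => ?_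
      have b1 := ms_nonneg (law j).nonneg (fun a => Bad d M kz g k₇ c₁ r w φ ρ a)
      have b2 := ms_nonneg (law j).nonneg (fun a => Bad d M kz g k₇ c₁ r w φ a ρ)
      have b3 := ms_nonneg (law j).nonneg (Bs d M kz R w (n + j))
      linarith only [b1, b2, b3]
    refine le_trans h4 ?_
    rw [Finset.sum_add_distrib, Finset.sum_add_distrib]
    have h5 : (2 * δ₀ + η) * (n : ℝ) ≤ c₂ / 16 * n := mul_le_mul_of_nonneg_right k3 hnR.le
    linarith only [hB, href1, href2, h5]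
  have hfin := one_ref (E := ℝ) (P := fun i => d.pk (n + i) w) (φ := φ)
    (ε := (2 : ℝ) ^ (-(g : ℤ))) (C := C₁) (c := c₂ / 4) (n := n) (by positivity) hn
    (fun i _ => (law i).nonneg) (fun i _ => (law i).sum_one) (φ ρ) J
    (Finset.filter_subset _ _) hJc hJs (by
      refine le_trans hone' ?_
      have h5 : δ' * (n : ℝ) ≤ c₂ / 16 * n := mul_le_mul_of_nonneg_right k4 hnR.le
      linarith only [h5])
  exact hfin

end Line

end Pool.OCV
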