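import Pool.Agent.H98.OCV.Stmts2
import Pool.Agent.H20.OC.Geo
import Pool.Agent.H12.OCS.Mate

/-!
# OCV: fine samples on one line, runs
-/

set_option autoImplicit false

namespace Pool.OCV

open Finset Real
open Pool.Agent.H49.Ent Pool.Agent.H32.Dense Pool.STK Pool.KAF
open Pool.OCM
open Pool.OC (sc sc_spec sc_ge sc_leW Pr_or isLaw_cnd floor_half)

namespace Line

open Classical in
theorem card_consec (Run : ℕ → Prop) {a b c : ℕ} (hab : a ≤ b) (hbc : b ≤ c) :
    (((Ico a c).filter Run).card : ℝ) =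
      ((Ico a b).filter Run).card + ((Ico b c).filter Run).card := by
  rw [Finset.card_filter, Finset.card_filter, Finset.card_filter]
  rw [← Finset.sum_Ico_consecutive _ hab hbc]
  push_cast
  ring

open Classical in
theorem ncard_eq (Run : ℕ → Prop) (a b : ℕ) :
    (Set.ncard {j | a ≤ j ∧ j < b ∧ Run j} : ℝ) = ((Ico a b).filter Run).card := by
  have h : {j | a ≤ j ∧ j < b ∧ Run j} = (((Ico a b).filter Run : Finset ℕ) : Set ℕ) := by
    ext j
    simp [and_assoc]
  rw [h, Set.ncard_coe_finset]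

open Classical in
/-- Runs in an interval. -/
theorem run_count (Run : ℕ → Prop) (h X : ℕ) (c₂ : ℝ) (hh : 0 < h) (hc : 0 ≤ c₂)
    (hrun : ∀ i, i + 2 * h ≤ X →
      c₂ * (2 * h : ℕ) ≤ (Set.ncard {j | i ≤ j ∧ j < i + 2 * h ∧ Run j} : ℝ))
    (x m : ℕ) (hm : 2 * h ≤ m) (hx : x + m ≤ X) :
    c₂ / 2 * m ≤ (((Ico x (x + m)).filter Run).card : ℝ) := by
  have key : ∀ t : ℕ, x + t * (2 * h) ≤ X →
      c₂ * (2 * h : ℕ) * t ≤ (((Ico x (x + t * (2 * h))).filter Run).card : ℝ) := by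
    intro t
    induction t with
    | zero => intro _; simp
    | succ t ih =>
      intro ht
      have e1 : (t + 1) * (2 * h) = t * (2 * h) + 2 * h := by ring
      rw [card_consec Run (b := x + t * (2 * h)) (by omega) (by rw [e1]; omega)]
      have h1 := ih (by rw [e1] at ht; omega)
      have h2 := hrun (x + t * (2 * h)) (by rw [e1] at ht; omega)
      rw [ncard_eq] at h2
      have e2 : x + (t + 1) * (2 * h) = x + t * (2 * h) + 2 * h := by rw [e1]; ring
      rw [e2]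
      push_cast at h1 h2 ⊢
      nlinarith
  set t := m / (2 * h) with ht
  have h1 : t * (2 * h) ≤ m := Nat.div_mul_le_self _ _
  have h2 : m < (t + 1) * (2 * h) := by
    have := Nat.lt_div_mul_add (a := m) (b := 2 * h) (by omega)
    rw [← ht] at this
    calc m < t * (2 * h) + 2 * h := this
      _ = (t + 1) * (2 * h) := by ring
  have h3 : 1 ≤ t := (Nat.one_le_div_iff (by omega)).2 hm
  have h4 := key t (by omega)
  have h5 : (((Ico x (x + t * (2 * h))).filter Run).card : ℝ) ≤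
      (((Ico x (x + m)).filter Run).card : ℝ) := by
    have : ((Ico x (x + t * (2 * h))).filter Run).card ≤ ((Ico x (x + m)).filter Run).card := by
      apply Finset.card_le_card
      apply Finset.filter_subset_filter
      exact Finset.Ico_subset_Ico le_rfl (by omega)
    exact_mod_cast this
  refine le_trans ?_ (le_trans h4 h5)
  have h6 : (m : ℝ) ≤ 2 * ((2 * h : ℕ) * t) := by
    have : m ≤ 2 * ((2 * h) * t) := by
      have : (t + 1) * (2 * h) ≤ 2 * (2 * h * t) := by nlinarith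
      omega
    exact_mod_cast this
  nlinarith

variable {c : ℕ} {d : Dat c} {w : d.Om}

theorem pk_law (hp : IsLaw d.P) (hw : 0 < d.P w) (i : ℕ) : IsLaw (d.pk i w) :=
  isLaw_cnd hp (fun v => (d.L v, d.Ti i v)) hw

theorem pl_law (hp : IsLaw d.P) (hw : 0 < d.P w) : IsLaw (d.pl w) :=
  isLaw_cnd hp d.L hw

theorem pk_nonneg (hp : ∀ ω, 0 ≤ d.P ω) (i : ℕ) (a : d.Om) : 0 ≤ d.pk i w a :=
  cond_nonneg hp _ _ _

theorem pk_mem (hp : ∀ ω, 0 ≤ d.P ω) {i : ℕ} {a : d.Om} (h : 0 < d.pk i w a) :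
    d.L a = d.L w ∧ d.Ti i a = d.Ti i w ∧ 0 < d.P a := by
  unfold Dat.pk Pool.Agent.H49.Ent.cond at h
  split_ifs at h with h1
  · have h2 := Prod.ext_iff.mp h1
    refine ⟨h2.1, h2.2, ?_⟩
    rcases (hp a).eq_or_lt with h0 | h0
    · rw [← h0, zero_div] at h
      exact absurd h (lt_irrefl _)
    · exact h0
  · exact absurd h (lt_irrefl _)

theorem Ti_near {i : ℕ} {a w : d.Om} (h : d.Ti i a = d.Ti i w) :
    |d.th (d.T a) - d.th (d.T w)| < (2 : ℝ) ^ (-(i : ℤ)) := by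
  have h1 := Int.abs_sub_lt_one_of_floor_eq_floor h
  have h2 : (2 : ℝ) ^ i * |d.th (d.T a) - d.th (d.T w)| < 1 := by
    rw [← mul_sub, abs_mul, abs_of_pos (by positivity : (0 : ℝ) < 2 ^ i)] at h1
    exact h1
  rw [zpow_neg, zpow_natCast, ← one_div, lt_div_iff₀ (by positivity)]
  linarith

theorem Ti_succ {i : ℕ} {a w : d.Om} (h : d.Ti (i + 1) a = d.Ti (i + 1) w) :
    d.Ti i a = d.Ti i w := by
  unfold Dat.Ti at h ⊢
  apply floor_half
  rw [← mul_assoc, ← mul_assoc, ← pow_succ']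
  exact h

/-- Coupling of the laws of two consecutive scales. -/
theorem pk_succ (hp : IsLaw d.P) (hw : 0 < d.P w) {i : ℕ}
    (h : ¬ Pr (d.pk i w) {v | d.Ti (i + 1) v = d.Ti (i + 1) w} < 1 / 3) (t : d.Om) :
    d.pk (i + 1) w t ≤ 3 * d.pk i w t := by
  classical
  set Z₀ := law d.P (fun v => (d.L v, d.Ti i v)) (d.L w, d.Ti i w) with hZ0
  set Z₁ := law d.P (fun v => (d.L v, d.Ti (i + 1) v)) (d.L w, d.Ti (i + 1) w) with hZ1
  have p0 : 0 < Z₀ := law_pos hp.nonneg (fun v => (d.L v, d.Ti i v)) hw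
  have p1 : 0 < Z₁ := law_pos hp.nonneg (fun v => (d.L v, d.Ti (i + 1) v)) hw
  have h1 : Pr (d.pk i w) {v | d.Ti (i + 1) v = d.Ti (i + 1) w} = Z₁ / Z₀ := by
    rw [Pr_eq, hZ1]
    unfold law
    rw [Finset.sum_div]
    refine Finset.sum_congr rfl fun v _ => ?_
    unfold Dat.pk Pool.Agent.H49.Ent.cond
    by_cases h2 : (d.L v, d.Ti (i + 1) v) = (d.L w, d.Ti (i + 1) w)
    · have h3 := Prod.ext_iff.mp h2
      have h4 : (d.L v, d.Ti i v) = (d.L w, d.Ti i w) := Prod.ext h3.1 (Ti_succ h3.2)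
      rw [if_pos h2, if_pos h4, if_pos (show v ∈ {v | d.Ti (i + 1) v = d.Ti (i + 1) w} from h3.2)]
    · rw [if_neg h2, zero_div]
      by_cases h5 : v ∈ {v | d.Ti (i + 1) v = d.Ti (i + 1) w}
      · rw [if_pos h5, if_neg]
        intro h6
        exact h2 (Prod.ext (Prod.ext_iff.mp h6).1 h5)
      · rw [if_neg h5]
  rw [h1, not_lt, le_div_iff₀ p0] at h
  unfold Dat.pk Pool.Agent.H49.Ent.cond
  by_cases h2 : (d.L t, d.Ti (i + 1) t) = (d.L w, d.Ti (i + 1) w)
  · have h3 := Prod.ext_iff.mp h2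
    have h4 : (d.L t, d.Ti i t) = (d.L w, d.Ti i w) := Prod.ext h3.1 (Ti_succ h3.2)
    rw [if_pos h2, if_pos h4]
    rw [← hZ0, ← hZ1, ← mul_div_assoc, div_le_div_iff₀ p1 p0]
    have := hp.nonneg t
    nlinarith
  · rw [if_neg h2]
    split_ifs
    · have := hp.nonneg t
      positivity
    · simp

end Line

end Pool.OCV
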