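import Pool.Agent.H98.OCV.Stmts

/-!
# Theorem OCV: the two kinds of schemes of references

`ker s n ω` is the law of the reference on the line of `ω`: coarse (`s = false`) or fine
(`s = true`). In the scheme `S` all the references are on the line of `w₀`, in the scheme `D` the
reference `k` is on an independent line through the point of `w₀`.
-/

set_option autoImplicit false

namespace Pool.OCV

open Finset Real
open Pool.Agent.H49.Ent Pool.Agent.H32.Dense Pool.STK Pool.KAF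
open Pool.OCM
open Pool.OC (sc)

variable {c : ℕ} (d : Dat c)

/-- The law of a reference on the line of `ω`. -/
noncomputable def ker (s : Bool) (n : ℕ) (ω : d.Om) (a : d.Om) : ℝ :=
  if s then (∑ i ∈ Finset.Ico n (2 * n), d.pk i ω a) / n else d.pl ω a

/-- The law of the scheme `S`. -/
noncomputable def QS (s : Fin c → Bool) (n : ℕ) (v : d.Om × (Fin c → d.Om)) : ℝ :=
  d.P v.1 * ∏ k, ker d (s k) n v.1 (v.2 k)

/-- The law of the scheme `D`. -/
noncomputable def QD (s : Fin c → Bool) (n : ℕ) (v : d.Om × (Fin c → d.Om × d.Om)) : ℝ :=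
  d.P v.1 * ∏ k, (d.pp v.1 (v.2 k).1 * ker d (s k) n (v.2 k).1 (v.2 k).2)

/-- **SCH.** Both are schemes of references. -/
def SCHStmt (c : ℕ) : Prop :=
  ∀ (A : ℕ) (d : Dat c) (ι : ℝ) (n : ℕ) (s : Fin c → Bool), d.OK A → 1 ≤ n → 0 ≤ ι → d.H1 ι →
    d.H7 ι →
    Sch d (QS d s n) Prod.fst (fun _ v => v.1) (fun k v => v.2 k) (4 * c * ι) ∧
    Sch d (QD d s n) Prod.fst (fun k v => (v.2 k).1) (fun k v => (v.2 k).2) (4 * c * ι)

/-- GEO from the rows. -/
def GEOofStmt : Prop := TIMStmt 2 → SCHStmt 2 → GEOSStmt → GEODStmt → GEOStmt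

/-- The theorem in codimension `2` from the two halves. -/
theorem ocv_of (hC : COREStmt 2) (hG : GEOStmt) : OCVStmt 2 := by
  intro A c₀ ca p₀ h0 ha hp
  obtain ⟨uu, dd, hu, -, hdd, hC⟩ := hC c₀ ca h0 ha
  obtain ⟨ν, x₀, q₀, ε, ι₁, X₁, hν, hνu, hx, hq, hε, hι₁, hG⟩ := hG p₀ uu dd hp hu hdd
  obtain ⟨η, κ, π₀, ι₂, X₂, hη, hη1, hκ, hκ1, hπ, hι₂, hC⟩ := hC A 2 ν q₀ hν hνu hq
  refine ⟨x₀, η, κ, π₀, min ι₁ (ι₂ / 20), ε, max X₁ X₂, hx, hη, hη1, hκ, hκ1, hπ,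
    lt_min hι₁ (by positivity), hε, ?_⟩
  intro d hok hX H1 H2 H3 H4 H5 H6a H6b H7
  obtain ⟨R, hR, Q, w₀, w, ρ, kmax, hS, hk, hgood⟩ := hG A d (min ι₁ (ι₂ / 20)) hok
    (le_trans (le_max_left _ _) hX) (min_le_left _ _) H1 H2 H7 H6a H6b
  have hXn : (0 : ℝ) ≤ d.X := Nat.cast_nonneg _
  have hι : min ι₁ (ι₂ / 20) ≤ ι₂ := le_trans (min_le_right _ _) (by linarith)
  have hm : min ι₁ (ι₂ / 20) * d.X ≤ ι₂ * d.X := mul_le_mul_of_nonneg_right hι hXn
  have hm20 : 20 * min ι₁ (ι₂ / 20) ≤ ι₂ := by linarith [min_le_right ι₁ (ι₂ / 20)]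
  have hm20' : 20 * min ι₁ (ι₂ / 20) * d.X ≤ ι₂ * d.X := mul_le_mul_of_nonneg_right hm20 hXn
  have hl : 0 ≤ Real.log 2 := Real.log_nonneg (by norm_num)
  refine absurd (hC d hok (le_trans (le_max_right _ _) hX) ⟨le_trans H1.1 hm, ?_⟩
    (le_trans H2 hm) (le_trans H3 hm) H4 H5 R Q w₀ w ρ kmax ?_ hk) (not_lt.mpr hgood)
  · refine le_trans (mul_le_mul_of_nonneg_right ?_ hl) H1.2
    nlinarith
  · exact { hS with
      mi := fun k => le_trans (hS.mi k) hm20'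
      mn := fun k => le_trans (hS.mn k) hm20' }

end Pool.OCV
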